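import Mathlib

set_option autoImplicit false

namespace Pool.Agent.H526E

open Pell Finset

/-- `d_k = (p!/k!) ∏_{j<k} (1 - j p)` -/
def dk (p k : ℕ) : ℤ := ((p.factorial / k.factorial : ℕ) : ℤ) * ∏ j ∈ range k, (1 - (j : ℤ) * p)

/-- `c_k = ∏_{j<k} (1 - j p) / k!` -/
noncomputable def ck (p k : ℕ) : ℝ := (∏ j ∈ range k, (1 - (j : ℝ) * p)) / (k.factorial : ℝ)

/-- coefficients of `x_n(V)` as a polynomial in `V` -/
def qc : ℕ → ℕ → ℤ
  | 0, 0 => 1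
  | 0, _ + 1 => 0
  | 1, 0 => 0
  | 1, 1 => 1
  | 1, _ + 2 => 0
  | n + 2, 0 => - qc n 0
  | n + 2, k + 1 => 2 * qc (n + 1) k - qc n (k + 1)

/-- the integer part -/
def N0 (p V : ℕ) : ℤ :=
  ∑ k ∈ range (p + 1), ∑ i ∈ range (p + 1), if k ≤ i then dk p k * qc p i * (V : ℤ) ^ (i - k) else 0

/-- the truncated root -/
noncomputable def Q (p : ℕ) (y : ℝ) : ℝ := ∑ k ∈ range (p + 1), ck p k * y ^ k

end Pool.Agent.H526E
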