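import Mathlib
import Pool.Agent.H526E.Defs

set_option autoImplicit false

namespace Pool.Agent.H526E

open Pell Finset

private lemma qc_zero' : ∀ n i : ℕ, n < i → qc n i = 0
  | 0, i, h => by
      obtain ⟨i, rfl⟩ : ∃ j, i = j + 1 := ⟨i - 1, by omega⟩
      simp [qc]
  | 1, i, h => by
      obtain ⟨i, rfl⟩ : ∃ j, i = j + 2 := ⟨i - 2, by omega⟩
      simp [qc]
  | n + 2, i, h => by
      obtain ⟨i, rfl⟩ : ∃ j, i = j + 1 := ⟨i - 1, by omega⟩
      rw [qc, qc_zero' (n + 1) i (by omega), qc_zero' n (i + 1) (by omega)]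
      simp

private lemma sum_ext' {V : ℕ} (n m : ℕ) (h : n + 1 ≤ m) :
    ∑ i ∈ range m, qc n i * (V : ℤ) ^ i = ∑ i ∈ range (n + 1), qc n i * (V : ℤ) ^ i := by
  symm
  apply Finset.sum_subset
  · intro x hx
    rw [mem_range] at hx ⊢
    omega
  · intro x _ hx
    rw [mem_range] at hx
    rw [qc_zero' n x (by omega), zero_mul]

private lemma sum_abs_ext' (n m : ℕ) (h : n + 1 ≤ m) :
    ∑ i ∈ range m, |qc n i| = ∑ i ∈ range (n + 1), |qc n i| := by
  symm
  apply Finset.sum_subset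
  · intro x hx
    rw [mem_range] at hx ⊢
    omega
  · intro x _ hx
    rw [mem_range] at hx
    rw [qc_zero' n x (by omega), abs_zero]

/- T1 -/
theorem qc_sum {V : ℕ} (h : 1 < V) (n : ℕ) :
    (xn h n : ℤ) = ∑ i ∈ range (n + 1), qc n i * (V : ℤ) ^ i := by
  induction n using Nat.strong_induction_on with
  | _ n ih =>
    match n, ih with
    | 0, _ => simp [qc]
    | 1, _ => simp [qc, Finset.sum_range_succ]
    | n + 2, ih =>
      have h0 := ih n (by omega)
      have h1 := ih (n + 1) (by omega)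
      have h2 : (xn h (n + 2) : ℤ) = 2 * V * xn h (n + 1) - xn h n := by
        have := Pell.xn_succ_succ h n
        have h3 : ((xn h (n + 2) + xn h n : ℕ) : ℤ) = ((2 * V * xn h (n + 1) : ℕ) : ℤ) := by
          rw [this]
        push_cast at h3
        linarith
      rw [h2, Finset.sum_range_succ']
      have h4 : ∑ k ∈ range (n + 2), qc (n + 2) (k + 1) * (V : ℤ) ^ (k + 1)
          = 2 * V * ∑ k ∈ range (n + 2), qc (n + 1) k * (V : ℤ) ^ k
            - ∑ k ∈ range (n + 2), qc n (k + 1) * (V : ℤ) ^ (k + 1) := by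
        rw [Finset.mul_sum, ← Finset.sum_sub_distrib]
        apply Finset.sum_congr rfl
        intro k _
        rw [qc]
        ring
      have h5 : ∑ k ∈ range (n + 2), qc n (k + 1) * (V : ℤ) ^ (k + 1) + qc n 0
          = ∑ i ∈ range (n + 1), qc n i * (V : ℤ) ^ i := by
        rw [← sum_ext' n (n + 3) (by omega), Finset.sum_range_succ' _ (n + 2)]
        simp
      rw [h4]
      have h6 : qc (n + 2) 0 * (V : ℤ) ^ 0 = - qc n 0 := by
        rw [qc]; simp
      rw [h6, ← h1]
      linarith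

theorem qc_top (n : ℕ) : qc (n + 1) (n + 1) = 2 ^ n := by
  induction n with
  | zero => simp [qc]
  | succ n ih =>
    rw [qc, ih, qc_zero' n (n + 1 + 1) (by omega)]
    ring

theorem qc_abs (n : ℕ) : ∑ i ∈ range (n + 1), |qc n i| ≤ 3 ^ n := by
  induction n using Nat.strong_induction_on with
  | _ n ih =>
    match n, ih with
    | 0, _ => simp [qc]
    | 1, _ => simp [qc, Finset.sum_range_succ]
    | n + 2, ih =>
      have h0 := ih n (by omega)
      have h1 := ih (n + 1) (by omega)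
      rw [Finset.sum_range_succ']
      have h4 : ∑ k ∈ range (n + 2), |qc (n + 2) (k + 1)|
          ≤ 2 * ∑ k ∈ range (n + 2), |qc (n + 1) k| + ∑ k ∈ range (n + 2), |qc n (k + 1)| := by
        rw [Finset.mul_sum, ← Finset.sum_add_distrib]
        apply Finset.sum_le_sum
        intro k _
        rw [qc]
        calc |2 * qc (n + 1) k - qc n (k + 1)| ≤ |2 * qc (n + 1) k| + |qc n (k + 1)| := abs_sub _ _
          _ = 2 * |qc (n + 1) k| + |qc n (k + 1)| := by rw [abs_mul]; norm_num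
      have h5 : ∑ k ∈ range (n + 2), |qc n (k + 1)| + |qc n 0|
          = ∑ i ∈ range (n + 1), |qc n i| := by
        rw [← sum_abs_ext' n (n + 3) (by omega), Finset.sum_range_succ' _ (n + 2)]
      have h6 : |qc (n + 2) 0| = |qc n 0| := by
        rw [qc, abs_neg]
      rw [h6]
      have h7 : (3 : ℤ) ^ (n + 1) = 3 * 3 ^ n := by ring
      have h8 : (3 : ℤ) ^ (n + 2) = 9 * 3 ^ n := by ring
      have h9 : (0 : ℤ) < 3 ^ n := by positivity
      rw [h8]
      rw [h7] at h1
      have h1' : ∑ k ∈ range (n + 2), |qc (n + 1) k| ≤ 3 * 3 ^ n := h1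
      linarith

private lemma dk_abs' {p k : ℕ} (hp : 3 ≤ p) (hk : k ≤ p) : |(dk p k : ℝ)| ≤ (p : ℝ) ^ (3 * p) := by
  have hp1 : (1 : ℝ) ≤ p := by exact_mod_cast (by omega : 1 ≤ p)
  unfold dk
  push_cast
  rw [abs_mul]
  have h1 : |((p.factorial / k.factorial : ℕ) : ℝ)| ≤ (p : ℝ) ^ p := by
    rw [abs_of_nonneg (by positivity)]
    have : p.factorial / k.factorial ≤ p ^ p := (Nat.div_le_self _ _).trans (Nat.factorial_le_pow p)
    exact_mod_cast this
  have h2 : |∏ j ∈ range k, (1 - (j : ℝ) * p)| ≤ (p : ℝ) ^ (2 * p) := by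
    rw [Finset.abs_prod]
    calc ∏ j ∈ range k, |1 - (j : ℝ) * p| ≤ ∏ j ∈ range k, ((p : ℝ) ^ 2) := by
          apply Finset.prod_le_prod
          · intro i _; exact abs_nonneg _
          · intro j hj
            rw [mem_range] at hj
            have hj' : (j : ℝ) + 1 ≤ p := by exact_mod_cast (by omega : j + 1 ≤ p)
            have hj0 : (0 : ℝ) ≤ j := by positivity
            rw [abs_le]
            constructor <;> nlinarith
      _ = (p : ℝ) ^ (2 * k) := by rw [Finset.prod_const, card_range, ← pow_mul]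
      _ ≤ (p : ℝ) ^ (2 * p) := pow_le_pow_right₀ hp1 (by omega)
  have h3 : ((p : ℝ) ^ (3 * p)) = (p : ℝ) ^ p * (p : ℝ) ^ (2 * p) := by rw [← pow_add]; congr 1; ring
  rw [h3]
  exact mul_le_mul h1 h2 (abs_nonneg _) (by positivity)

private lemma fact_ck' {p k : ℕ} (hk : k ≤ p) : (p.factorial : ℝ) * ck p k = (dk p k : ℝ) := by
  have h1 : k.factorial ∣ p.factorial := Nat.factorial_dvd_factorial hk
  have h2 : (k.factorial : ℝ) ≠ 0 := by exact_mod_cast Nat.factorial_ne_zero k
  have h3 : ((∏ j ∈ range k, (1 - (j : ℤ) * p) : ℤ) : ℝ) = ∏ j ∈ range k, (1 - (j : ℝ) * p) := by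
    push_cast
    rfl
  unfold ck dk
  rw [Int.cast_mul, Int.cast_natCast, Nat.cast_div h1 h2, h3]
  ring

/- T1b -/
theorem near_N0 {p V : ℕ} (h : 1 < V) (hp : 3 ≤ p) :
    |(p.factorial : ℝ) * xn h p * Q p (1 / V) - N0 p V| ≤ ((p : ℝ) ^ (p ^ 2)) ^ 3 / V := by
  have hV : (1 : ℝ) < V := by exact_mod_cast h
  have hV0 : (0 : ℝ) < V := by linarith
  have hp1 : (1 : ℝ) ≤ p := by exact_mod_cast (by omega : 1 ≤ p)
  have hx : (xn h p : ℝ) = ∑ i ∈ range (p + 1), (qc p i : ℝ) * (V : ℝ) ^ i := by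
    have := qc_sum h p
    have h2 : (((xn h p : ℕ) : ℤ) : ℝ) = ((∑ i ∈ range (p + 1), qc p i * (V : ℤ) ^ i : ℤ) : ℝ) := by
      rw [this]
    push_cast at h2
    exact h2
  have e1 : (p.factorial : ℝ) * xn h p * Q p (1 / V)
      = ∑ k ∈ range (p + 1), ∑ i ∈ range (p + 1),
        (dk p k : ℝ) * (qc p i : ℝ) * ((V : ℝ) ^ i * (1 / V) ^ k) := by
    unfold Q
    rw [Finset.mul_sum]
    apply Finset.sum_congr rfl
    intro k hk
    rw [mem_range] at hk
    rw [← fact_ck' (by omega : k ≤ p), hx]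
    rw [Finset.mul_sum, Finset.sum_mul]
    apply Finset.sum_congr rfl
    intro i _
    ring
  have e2 : (N0 p V : ℝ) = ∑ k ∈ range (p + 1), ∑ i ∈ range (p + 1),
      if k ≤ i then (dk p k : ℝ) * (qc p i : ℝ) * (V : ℝ) ^ (i - k) else 0 := by
    unfold N0
    push_cast
    apply Finset.sum_congr rfl
    intro k _
    apply Finset.sum_congr rfl
    intro i _
    split_ifs <;> simp
  rw [e1, e2, ← Finset.sum_sub_distrib]
  have e3 : ∀ k ∈ range (p + 1), |(∑ i ∈ range (p + 1),
        (dk p k : ℝ) * (qc p i : ℝ) * ((V : ℝ) ^ i * (1 / V) ^ k)) - ∑ i ∈ range (p + 1),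
      (if k ≤ i then (dk p k : ℝ) * (qc p i : ℝ) * (V : ℝ) ^ (i - k) else 0)|
      ≤ (p : ℝ) ^ (3 * p) * 3 ^ p / V := by
    intro k hk
    rw [mem_range] at hk
    rw [← Finset.sum_sub_distrib]
    have hqa : ∑ i ∈ range (p + 1), |(qc p i : ℝ)| ≤ 3 ^ p := by
      have := qc_abs p
      have h2 : ((∑ i ∈ range (p + 1), |qc p i| : ℤ) : ℝ) ≤ ((3 ^ p : ℤ) : ℝ) := by
        exact_mod_cast this
      push_cast at h2
      exact h2
    calc _ ≤ ∑ i ∈ range (p + 1), |(dk p k : ℝ) * (qc p i : ℝ) * ((V : ℝ) ^ i * (1 / V) ^ k)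
            - (if k ≤ i then (dk p k : ℝ) * (qc p i : ℝ) * (V : ℝ) ^ (i - k) else 0)| :=
          Finset.abs_sum_le_sum_abs _ _
      _ ≤ ∑ i ∈ range (p + 1), (p : ℝ) ^ (3 * p) * |(qc p i : ℝ)| / V := by
          apply Finset.sum_le_sum
          intro i _
          by_cases hki : k ≤ i
          · rw [if_pos hki]
            have : (V : ℝ) ^ i * (1 / V) ^ k = (V : ℝ) ^ (i - k) := by
              rw [one_div, inv_pow]
              rw [pow_sub₀ _ hV0.ne' hki]
            rw [this, sub_self, abs_zero]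
            positivity
          · rw [if_neg hki, sub_zero, abs_mul, abs_mul]
            have h1 : |(V : ℝ) ^ i * (1 / V) ^ k| ≤ 1 / V := by
              rw [abs_of_nonneg (by positivity)]
              have hk2 : k = i + 1 + (k - i - 1) := by omega
              rw [hk2, pow_add, pow_add, pow_one]
              have h2 : (V : ℝ) ^ i * ((1 / V) ^ i * (1 / V) * (1 / V) ^ (k - i - 1))
                  = (1 / V) * (1 / V) ^ (k - i - 1) := by
                rw [one_div, inv_pow]
                field_simp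
              rw [h2]
              have h3 : (1 / (V : ℝ)) ^ (k - i - 1) ≤ 1 :=
                pow_le_one₀ (by positivity) (by rw [div_le_one hV0]; exact hV.le)
              have h4 : (0 : ℝ) ≤ 1 / V := by positivity
              nlinarith
            have h5 := dk_abs' hp (by omega : k ≤ p)
            calc |(dk p k : ℝ)| * |(qc p i : ℝ)| * |(V : ℝ) ^ i * (1 / V) ^ k|
                ≤ ((p : ℝ) ^ (3 * p) * |(qc p i : ℝ)|) * (1 / V) := by
                  apply mul_le_mul _ h1 (abs_nonneg _) (by positivity)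
                  exact mul_le_mul_of_nonneg_right h5 (abs_nonneg _)
              _ = (p : ℝ) ^ (3 * p) * |(qc p i : ℝ)| / V := by ring
      _ = (p : ℝ) ^ (3 * p) * (∑ i ∈ range (p + 1), |(qc p i : ℝ)|) / V := by
          rw [Finset.mul_sum, Finset.sum_div]
      _ ≤ (p : ℝ) ^ (3 * p) * 3 ^ p / V := by
          apply div_le_div_of_nonneg_right _ hV0.le
          exact mul_le_mul_of_nonneg_left hqa (by positivity)
  calc _ ≤ ∑ k ∈ range (p + 1), (p : ℝ) ^ (3 * p) * 3 ^ p / V :=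
        (Finset.abs_sum_le_sum_abs _ _).trans (Finset.sum_le_sum e3)
    _ = ((p : ℝ) + 1) * ((p : ℝ) ^ (3 * p) * 3 ^ p) / V := by
        rw [Finset.sum_const, card_range, nsmul_eq_mul]
        push_cast
        ring
    _ ≤ ((p : ℝ) ^ (p ^ 2)) ^ 3 / V := by
        apply div_le_div_of_nonneg_right _ hV0.le
        have hp3 : (3 : ℝ) ≤ p := by exact_mod_cast hp
        have h1 : (p : ℝ) + 1 ≤ (p : ℝ) ^ 2 := by nlinarith
        have h2 : (3 : ℝ) ^ p ≤ (p : ℝ) ^ p := pow_le_pow_left₀ (by norm_num) hp3 p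
        calc ((p : ℝ) + 1) * ((p : ℝ) ^ (3 * p) * 3 ^ p)
            ≤ (p : ℝ) ^ 2 * ((p : ℝ) ^ (3 * p) * (p : ℝ) ^ p) := by
              apply mul_le_mul h1 _ (by positivity) (by positivity)
              exact mul_le_mul_of_nonneg_left h2 (by positivity)
          _ = (p : ℝ) ^ (4 * p + 2) := by
              rw [← pow_add, ← pow_add]; congr 1; ring
          _ ≤ (p : ℝ) ^ (p ^ 2 * 3) := pow_le_pow_right₀ hp1 (by nlinarith)
          _ = ((p : ℝ) ^ (p ^ 2)) ^ 3 := by rw [pow_mul]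

end Pool.Agent.H526E
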