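import Mathlib
import Pool.Agent.H526E.Defs

set_option autoImplicit false

namespace Pool.Agent.H526E

open Finset

private lemma ck_zero (p : ℕ) : ck p 0 = 1 := by simp [ck]

private lemma ck_one (p : ℕ) : ck p 1 = 1 := by simp [ck]

private lemma ck_succ (p k : ℕ) : ck p (k + 1) * (k + 1) = ck p k * (1 - (k : ℝ) * p) := by
  unfold ck
  rw [Finset.prod_range_succ, Nat.factorial_succ]
  have h1 : (k.factorial : ℝ) ≠ 0 := by exact_mod_cast k.factorial_ne_zero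
  have h2 : ((k : ℝ) + 1) ≠ 0 := by positivity
  push_cast
  generalize (∏ j ∈ range k, (1 - (j : ℝ) * p)) = P
  field_simp

private lemma ck_abs {p : ℕ} (hp : 1 ≤ p) (k : ℕ) : |ck p (k + 1)| ≤ (p : ℝ) ^ k := by
  have hp' : (1 : ℝ) ≤ p := by exact_mod_cast hp
  induction k with
  | zero => simp [ck_one]
  | succ k ih =>
    have h1 := ck_succ p (k + 1)
    have h2 : (0 : ℝ) < ((k + 1 : ℕ) : ℝ) + 1 := by positivity
    have h3 : |ck p (k + 1 + 1)| * (((k + 1 : ℕ) : ℝ) + 1) =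
        |ck p (k + 1)| * |1 - ((k + 1 : ℕ) : ℝ) * p| := by
      rw [← abs_mul, ← h1, abs_mul, abs_of_pos h2]
    have h4 : |1 - ((k + 1 : ℕ) : ℝ) * p| ≤ (((k + 1 : ℕ) : ℝ) + 1) * p := by
      have h5 : (1 : ℝ) ≤ ((k + 1 : ℕ) : ℝ) * p := by
        have : (1 : ℝ) ≤ ((k + 1 : ℕ) : ℝ) := by
          push_cast
          linarith [(Nat.cast_nonneg k : (0 : ℝ) ≤ k)]
        nlinarith
      rw [abs_of_nonpos (by linarith)]
      nlinarith
    have h6 : |ck p (k + 1 + 1)| * (((k + 1 : ℕ) : ℝ) + 1) ≤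
        ((p : ℝ) ^ k * p) * (((k + 1 : ℕ) : ℝ) + 1) := by
      rw [h3]
      calc |ck p (k + 1)| * |1 - ((k + 1 : ℕ) : ℝ) * p|
          ≤ (p : ℝ) ^ k * ((((k + 1 : ℕ) : ℝ) + 1) * p) :=
            mul_le_mul ih h4 (abs_nonneg _) (by positivity)
        _ = ((p : ℝ) ^ k * p) * (((k + 1 : ℕ) : ℝ) + 1) := by ring
    have h7 := le_of_mul_le_mul_right h6 h2
    rw [pow_succ]
    exact h7

private lemma Q_bounds {p : ℕ} (hp : 3 ≤ p) {t : ℝ} (ht : 0 ≤ t)
    (ht2 : t * (p : ℝ) ^ 2 ≤ 1 / 2) : 1 ≤ Q p t ∧ Q p t ≤ 2 := by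
  have hp' : (3 : ℝ) ≤ p := by exact_mod_cast hp
  obtain ⟨m, rfl⟩ : ∃ m, p = m + 1 := ⟨p - 1, by omega⟩
  set P : ℝ := ((m + 1 : ℕ) : ℝ) with hP
  have hPt : P * t ≤ 1 := by nlinarith
  have hQ : Q (m + 1) t = ∑ k ∈ range m, ck (m + 1) (k + 2) * t ^ (k + 2) + t + 1 := by
    unfold Q
    rw [Finset.sum_range_succ', Finset.sum_range_succ']
    simp [ck_zero, ck_one]
  have hS : |∑ k ∈ range m, ck (m + 1) (k + 2) * t ^ (k + 2)| ≤ P ^ 2 * t * t := by
    calc |∑ k ∈ range m, ck (m + 1) (k + 2) * t ^ (k + 2)|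
        ≤ ∑ k ∈ range m, |ck (m + 1) (k + 2) * t ^ (k + 2)| := Finset.abs_sum_le_sum_abs _ _
      _ ≤ ∑ k ∈ range m, P * t * t := by
          refine Finset.sum_le_sum (fun k _ => ?_)
          rw [abs_mul, abs_of_nonneg (by positivity : (0 : ℝ) ≤ t ^ (k + 2))]
          have h1 := ck_abs (p := m + 1) (by omega) (k + 1)
          calc |ck (m + 1) (k + 2)| * t ^ (k + 2) ≤ P ^ (k + 1) * t ^ (k + 2) :=
                mul_le_mul_of_nonneg_right h1 (by positivity)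
            _ = (P * t) ^ k * (P * t * t) := by ring
            _ ≤ 1 * (P * t * t) := by
                refine mul_le_mul_of_nonneg_right ?_ (by positivity)
                exact pow_le_one₀ (by positivity) hPt
            _ = P * t * t := one_mul _
      _ = m * (P * t * t) := by simp
      _ ≤ P * (P * t * t) := by
          refine mul_le_mul_of_nonneg_right ?_ (by positivity)
          rw [hP]
          push_cast
          linarith
      _ = P ^ 2 * t * t := by ring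
  have h2 := abs_le.1 hS
  have h3 : P ^ 2 * t * t ≤ 1 / 2 * t := mul_le_mul_of_nonneg_right (by linarith) ht
  have h4 : t ≤ 1 / 2 := by nlinarith
  rw [hQ]
  constructor
  · linarith
  · linarith

/-- the formal derivative -/
private noncomputable def DQ (p : ℕ) (y : ℝ) : ℝ :=
  ∑ k ∈ range (p + 1), ck p k * (k * y ^ (k - 1))

private lemma Q_deriv (p : ℕ) (y : ℝ) : HasDerivAt (Q p) (DQ p y) y := by
  have h : ∀ k ∈ range (p + 1), HasDerivAt (fun y : ℝ => ck p k * y ^ k)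
      (ck p k * (k * y ^ (k - 1))) y := by
    intro k _
    exact (hasDerivAt_pow k y).const_mul _
  exact HasDerivAt.fun_sum h

private lemma DQ_eq (p : ℕ) (y : ℝ) :
    (1 + p * y) * DQ p y = Q p y - ck p p * (1 - (p : ℝ) ^ 2) * y ^ p := by
  have h1 : DQ p y = ∑ k ∈ range p, ck p k * (1 - (k : ℝ) * p) * y ^ k := by
    unfold DQ
    rw [Finset.sum_range_succ']
    simp only [Nat.cast_zero, zero_mul, mul_zero, add_zero, Nat.add_sub_cancel]
    refine Finset.sum_congr rfl (fun k _ => ?_)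
    rw [← ck_succ]
    push_cast
    ring
  have h2 : y * DQ p y = ∑ k ∈ range (p + 1), ck p k * k * y ^ k := by
    unfold DQ
    rw [Finset.mul_sum]
    refine Finset.sum_congr rfl (fun k _ => ?_)
    cases k with
    | zero => simp
    | succ k =>
      rw [Nat.add_sub_cancel, pow_succ]
      ring
  have h3 : (1 + p * y) * DQ p y = DQ p y + p * (y * DQ p y) := by ring
  rw [h3, h2]
  nth_rewrite 1 [h1]
  rw [Finset.sum_range_succ]
  unfold Q
  rw [Finset.sum_range_succ, mul_add, Finset.mul_sum, ← add_assoc, ← Finset.sum_add_distrib]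
  have h4 : ∑ k ∈ range p, (ck p k * (1 - (k : ℝ) * p) * y ^ k + p * (ck p k * k * y ^ k)) =
      ∑ k ∈ range p, ck p k * y ^ k := by
    refine Finset.sum_congr rfl (fun k _ => ?_)
    ring
  rw [h4]
  ring

/- T2 -/
theorem Q_pow {p : ℕ} (hp : 3 ≤ p) {y : ℝ} (hy : 0 < y) (hy2 : y * (p : ℝ) ^ (p ^ 2) ≤ 1) :
    1 ≤ Q p y ∧ Q p y ≤ 2 ∧
      |Q p y ^ p - (1 + p * y)| ≤ (p : ℝ) ^ (p ^ 2) * y ^ (p + 1) := by
  have hp' : (3 : ℝ) ≤ p := by exact_mod_cast hp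
  have hp1 : (1 : ℝ) ≤ p := by linarith
  have hp0 : (0 : ℝ) < p := by linarith
  have h33 : 3 ≤ p ^ 2 := by nlinarith
  have hpow3 : (p : ℝ) ^ 3 ≤ (p : ℝ) ^ (p ^ 2) := pow_le_pow_right₀ hp1 h33
  have hyp3 : y * (p : ℝ) ^ 3 ≤ 1 := le_trans (mul_le_mul_of_nonneg_left hpow3 hy.le) hy2
  have hyp2 : y * (p : ℝ) ^ 2 ≤ 1 / 2 := by
    have h1 : y * (p : ℝ) ^ 2 * p ≤ 1 := by
      calc y * (p : ℝ) ^ 2 * p = y * (p : ℝ) ^ 3 := by ring
        _ ≤ 1 := hyp3
    have h2 : 0 ≤ y * (p : ℝ) ^ 2 := by positivity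
    nlinarith
  have hb : ∀ t : ℝ, 0 ≤ t → t ≤ y → 1 ≤ Q p t ∧ Q p t ≤ 2 := by
    intro t ht hty
    refine Q_bounds hp ht (le_trans ?_ hyp2)
    exact mul_le_mul_of_nonneg_right hty (by positivity)
  refine ⟨(hb y hy.le le_rfl).1, (hb y hy.le le_rfl).2, ?_⟩
  -- the quotient
  have hden : ∀ t : ℝ, 0 ≤ t → (0 : ℝ) < 1 + p * t := fun t ht => by positivity
  have hG : ∀ t : ℝ, 0 ≤ t → HasDerivAt (fun t : ℝ => Q p t ^ p / (1 + p * t))
      (-(p * Q p t ^ (p - 1) * (ck p p * (1 - (p : ℝ) ^ 2) * t ^ p)) / (1 + p * t) ^ 2) t := by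
    intro t ht
    have h1 : HasDerivAt (fun t : ℝ => Q p t ^ p) (p * Q p t ^ (p - 1) * DQ p t) t :=
      (Q_deriv p t).fun_pow p
    have h2 : HasDerivAt (fun t : ℝ => 1 + (p : ℝ) * t) p t := by
      have := ((hasDerivAt_id t).const_mul (p : ℝ)).const_add 1
      simpa using this
    have h3 := h1.fun_div h2 (ne_of_gt (hden t ht))
    refine h3.congr_deriv ?_
    have h4 := DQ_eq p t
    have h5 : Q p t ^ p = Q p t ^ (p - 1) * Q p t := by
      rw [← pow_succ]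
      congr 1
      omega
    rw [h5]
    have h6 : (p : ℝ) * Q p t ^ (p - 1) * DQ p t * (1 + p * t) =
        p * Q p t ^ (p - 1) * ((1 + p * t) * DQ p t) := by ring
    rw [h6, h4]
    congr 1
    ring
  obtain ⟨c, hc, hslope⟩ := exists_hasDerivAt_eq_slope (fun t : ℝ => Q p t ^ p / (1 + p * t))
    (fun t => -(p * Q p t ^ (p - 1) * (ck p p * (1 - (p : ℝ) ^ 2) * t ^ p)) / (1 + p * t) ^ 2)
    hy (fun t ht => (hG t ht.1).continuousAt.continuousWithinAt)
    (fun t ht => hG t ht.1.le)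
  have hQ0 : Q p 0 = 1 := by
    unfold Q
    rw [Finset.sum_range_succ']
    simp [ck_zero]
  have hdy := hden y hy.le
  have hdc := hden c hc.1.le
  have e1 : Q p y ^ p / (1 + p * y) - 1 =
      (-(p * Q p c ^ (p - 1) * (ck p p * (1 - (p : ℝ) ^ 2) * c ^ p)) / (1 + p * c) ^ 2) * y := by
    rw [hslope, hQ0, one_pow, mul_zero, add_zero, div_one, sub_zero, div_mul_cancel₀ _ hy.ne']
  have e2 : Q p y ^ p - (1 + p * y) = (Q p y ^ p / (1 + p * y) - 1) * (1 + p * y) := by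
    field_simp
  have hck : |ck p p| ≤ (p : ℝ) ^ (p - 1) := by
    have := ck_abs (p := p) (by omega) (p - 1)
    rwa [Nat.sub_add_cancel (by omega)] at this
  have hc2 : (1 : ℝ) ≤ (1 + p * c) ^ 2 := by
    have : 0 ≤ p * c := by
      have := hc.1
      positivity
    nlinarith
  have hQc := hb c hc.1.le hc.2.le
  have e3 : |(-(p * Q p c ^ (p - 1) * (ck p p * (1 - (p : ℝ) ^ 2) * c ^ p)) / (1 + p * c) ^ 2)| ≤
      p * 2 ^ (p - 1) * ((p : ℝ) ^ (p - 1) * (p : ℝ) ^ 2 * y ^ p) := by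
    rw [abs_div, abs_neg, abs_of_nonneg (by positivity : (0 : ℝ) ≤ (1 + p * c) ^ 2)]
    refine le_trans (div_le_self (abs_nonneg _) hc2) ?_
    rw [abs_mul, abs_mul, abs_mul, abs_mul, abs_of_pos hp0,
      abs_of_nonneg (by have := hQc.1; positivity : (0 : ℝ) ≤ Q p c ^ (p - 1)),
      abs_of_nonneg (by have := hc.1; positivity : (0 : ℝ) ≤ c ^ p)]
    have f1 : Q p c ^ (p - 1) ≤ 2 ^ (p - 1) :=
      pow_le_pow_left₀ (by have := hQc.1; linarith) hQc.2 _
    have f2 : |1 - (p : ℝ) ^ 2| ≤ (p : ℝ) ^ 2 := by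
      rw [abs_of_nonpos (by nlinarith)]
      linarith
    have f3 : c ^ p ≤ y ^ p := pow_le_pow_left₀ hc.1.le hc.2.le _
    have f4 : (0 : ℝ) ≤ c ^ p := by have := hc.1; positivity
    gcongr
  have hpy : (p : ℝ) * y ≤ 1 := by nlinarith
  rw [e2, e1, abs_mul, abs_mul, abs_of_pos hy, abs_of_pos hdy]
  calc |(-(p * Q p c ^ (p - 1) * (ck p p * (1 - (p : ℝ) ^ 2) * c ^ p)) / (1 + p * c) ^ 2)| * y *
        (1 + p * y)
      ≤ (p * 2 ^ (p - 1) * ((p : ℝ) ^ (p - 1) * (p : ℝ) ^ 2 * y ^ p)) * y * 2 := by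
        gcongr
        linarith
    _ = (2 ^ (p - 1) * 2) * (p : ℝ) ^ (p - 1 + 3) * y ^ (p + 1) := by ring
    _ = 2 ^ p * (p : ℝ) ^ (p + 2) * y ^ (p + 1) := by
        rw [← pow_succ, Nat.sub_add_cancel (by omega), show p - 1 + 3 = p + 2 by omega]
    _ ≤ (p : ℝ) ^ p * (p : ℝ) ^ (p + 2) * y ^ (p + 1) := by
        gcongr
        linarith
    _ = (p : ℝ) ^ (p + (p + 2)) * y ^ (p + 1) := by rw [← pow_add]
    _ ≤ (p : ℝ) ^ (p ^ 2) * y ^ (p + 1) := by
        refine mul_le_mul_of_nonneg_right (pow_le_pow_right₀ hp1 ?_) (by positivity)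
        nlinarith

end Pool.Agent.H526E
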