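import Mathlib
import Pool.Agent.H526E.Defs

set_option autoImplicit false

namespace Pool.Agent.H526E

open Pell Finset

theorem yn_two_mul_le {a : ℕ} (h : 1 < a) (p : ℕ) :
    (yn h (p + 1) : ℝ) ≤ (2 * (a : ℝ)) ^ p := by
  induction p with
  | zero => simp
  | succ p ih =>
    have h1 : (yn h (p + 2) : ℝ) + yn h p = 2 * a * yn h (p + 1) := by
      exact_mod_cast Pell.yn_succ_succ h p
    have h2 : (0 : ℝ) ≤ yn h p := Nat.cast_nonneg _
    have h3 : (0 : ℝ) ≤ a := Nat.cast_nonneg _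
    calc (yn h (p + 1 + 1) : ℝ) ≤ 2 * a * yn h (p + 1) := by
          rw [show p + 1 + 1 = p + 2 from rfl]; linarith
      _ ≤ 2 * a * (2 * (a : ℝ)) ^ p := by gcongr
      _ = (2 * (a : ℝ)) ^ (p + 1) := by ring

theorem yn_approx {a : ℕ} (h : 1 < a) (p : ℕ) :
    (2 * (a : ℝ)) ^ p * (1 - p / (2 * (a : ℝ) ^ 2)) ≤ yn h (p + 1) ∧
      (yn h (p + 1) : ℝ) ≤ (2 * (a : ℝ)) ^ p := by
  refine ⟨?_, yn_two_mul_le h p⟩
  have ha : (0 : ℝ) < a := by exact_mod_cast (by omega : 0 < a)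
  induction p with
  | zero => simp
  | succ p ih =>
    have h1 : (yn h (p + 2) : ℝ) + yn h p = 2 * a * yn h (p + 1) := by
      exact_mod_cast Pell.yn_succ_succ h p
    have h2 : (yn h p : ℝ) * (2 * a) ≤ (2 * (a : ℝ)) ^ p := by
      rcases p with _ | p
      · simp
      · have := yn_two_mul_le h p
        calc (yn h (p + 1) : ℝ) * (2 * a) ≤ (2 * (a : ℝ)) ^ p * (2 * a) := by gcongr
          _ = (2 * (a : ℝ)) ^ (p + 1) := by ring
    have h3 : (yn h p : ℝ) ≤ (2 * (a : ℝ)) ^ p / (2 * a) := by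
      rw [le_div_iff₀ (by positivity)]
      exact h2
    have h4 : (0 : ℝ) < (2 * (a : ℝ)) ^ p := by positivity
    have h5 : 2 * (a : ℝ) * ((2 * (a : ℝ)) ^ p * (1 - p / (2 * (a : ℝ) ^ 2))) ≤
        2 * a * yn h (p + 1) := by gcongr
    have h6 : (2 * (a : ℝ)) ^ (p + 1) * (1 - ((p + 1 : ℕ) : ℝ) / (2 * (a : ℝ) ^ 2)) =
        2 * (a : ℝ) * ((2 * (a : ℝ)) ^ p * (1 - p / (2 * (a : ℝ) ^ 2))) -
          2 * ((2 * (a : ℝ)) ^ p / (2 * a)) := by
      push_cast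
      field_simp
      ring
    have h7 : (0 : ℝ) ≤ (2 * (a : ℝ)) ^ p / (2 * a) := by positivity
    rw [h6]
    have h8 : (yn h (p + 1 + 1) : ℝ) = 2 * a * yn h (p + 1) - yn h p := by
      rw [show p + 1 + 1 = p + 2 from rfl]; linarith
    rw [h8]
    linarith

theorem xn_rec {V : ℕ} (h : 1 < V) (p m : ℕ) :
    (xn h ((m + 2) * p) : ℝ) = 2 * xn h p * xn h ((m + 1) * p) - xn h (m * p) := by
  have h1 := Pell.xn_add h ((m + 1) * p) p
  have h2 := Pell.xz_sub h (m := (m + 1) * p) (n := p) (Nat.le_mul_of_pos_left p (Nat.succ_pos m))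
  have e1 : (m + 1) * p + p = (m + 2) * p := by ring
  have e2 : (m + 1) * p - p = m * p := by
    rw [add_mul, one_mul, Nat.add_sub_cancel]
  rw [e1] at h1
  rw [e2] at h2
  have h3 : (xn h ((m + 2) * p) : ℤ) = 2 * xn h p * xn h ((m + 1) * p) - xn h (m * p) := by
    have h1' := congrArg (Nat.cast : ℕ → ℤ) h1
    push_cast at h1'
    unfold xz yz at h2
    linarith
  exact_mod_cast h3

theorem xn_approx {V : ℕ} (h : 1 < V) {p : ℕ} (hp : 1 ≤ p) :
    (2 * (xn h p : ℝ)) ^ p * (1 - p / (2 * (xn h p : ℝ) ^ 2)) ≤ 2 * (xn h (p * p) : ℝ) ∧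
      2 * (xn h (p * p) : ℝ) ≤ (2 * (xn h p : ℝ)) ^ p := by
  have hX : (0 : ℝ) < xn h p := by
    have : 0 < xn h p := lt_of_le_of_lt (Nat.zero_le _) (Pell.n_lt_xn h p)
    exact_mod_cast this
  obtain ⟨X, hXd⟩ : ∃ X : ℝ, X = xn h p := ⟨_, rfl⟩
  have key : ∀ m : ℕ, ((xn h (m * p) : ℝ) ≤ (2 * X) ^ m) ∧
      2 * (xn h ((m + 1) * p) : ℝ) ≤ (2 * X) ^ (m + 1) ∧
      (2 * X) ^ (m + 1) * (1 - ((m + 1 : ℕ) : ℝ) / (2 * X ^ 2)) ≤
        2 * (xn h ((m + 1) * p) : ℝ) := by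
    rw [← hXd] at hX
    intro m
    induction m with
    | zero =>
      refine ⟨by simp, ?_, ?_⟩
      · rw [zero_add, one_mul, pow_one, ← hXd]
      · rw [zero_add, one_mul, pow_one, ← hXd]
        have : (0 : ℝ) ≤ 2 * X * (((1 : ℕ) : ℝ) / (2 * X ^ 2)) := by positivity
        linarith
    | succ m ih =>
      obtain ⟨i1, i2, i3⟩ := ih
      have hrec := xn_rec h p m
      rw [← hXd] at hrec
      have hn : (0 : ℝ) ≤ xn h (m * p) := Nat.cast_nonneg _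
      have hn1 : (0 : ℝ) ≤ xn h ((m + 1) * p) := Nat.cast_nonneg _
      refine ⟨?_, ?_, ?_⟩
      · linarith
      · rw [show m + 1 + 1 = m + 2 from rfl, hrec]
        calc 2 * (2 * X * (xn h ((m + 1) * p) : ℝ) - xn h (m * p))
            ≤ 2 * X * (2 * (xn h ((m + 1) * p) : ℝ)) := by linarith
          _ ≤ 2 * X * (2 * X) ^ (m + 1) := by gcongr
          _ = (2 * X) ^ (m + 2) := by ring
      · rw [show m + 1 + 1 = m + 2 from rfl, hrec]
        have h5 : 2 * X * ((2 * X) ^ (m + 1) * (1 - ((m + 1 : ℕ) : ℝ) / (2 * X ^ 2))) ≤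
            2 * X * (2 * (xn h ((m + 1) * p) : ℝ)) := by gcongr
        have h6 : (2 * X) ^ (m + 2) * (1 - ((m + 2 : ℕ) : ℝ) / (2 * X ^ 2)) =
            2 * X * ((2 * X) ^ (m + 1) * (1 - ((m + 1 : ℕ) : ℝ) / (2 * X ^ 2))) -
              2 * (2 * X) ^ m := by
          push_cast
          field_simp
          ring
        rw [h6]
        linarith
  obtain ⟨q, rfl⟩ : ∃ q, p = q + 1 := ⟨p - 1, by omega⟩
  obtain ⟨-, k2, k3⟩ := key q
  rw [← hXd]
  exact ⟨k3, k2⟩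

end Pool.Agent.H526E
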