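import Mathlib
import Pool.Agent.H526E.Defs

set_option autoImplicit false

namespace Pool.Agent.H526E

open Finset

namespace PD

theorem qc_zero : ∀ n k : ℕ, n < k → qc n k = 0 ∧ qc (n + 1) (k + 1) = 0 := by
  intro n
  induction n using Nat.strong_induction_on with
  | _ n ih =>
    intro k hk
    rcases n with _ | n
    · obtain ⟨k', rfl⟩ : ∃ k', k = k' + 1 := ⟨k - 1, by omega⟩
      exact ⟨rfl, rfl⟩
    · obtain ⟨k', rfl⟩ : ∃ k', k = k' + 1 := ⟨k - 1, by omega⟩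
      have h1 := (ih n (by omega) k' (by omega)).2
      refine ⟨h1, ?_⟩
      have h2 := (ih n (by omega) (k' + 1 + 1) (by omega)).1
      show 2 * qc (n + 1) (k' + 1) - qc n (k' + 1 + 1) = 0
      rw [h1, h2]
      ring

theorem qc_top' : ∀ n : ℕ, qc (n + 1) (n + 1) = 2 ^ n := by
  intro n
  induction n with
  | zero => rfl
  | succ n ih =>
    have h2 := (qc_zero n (n + 1 + 1) (by omega)).1
    show 2 * qc (n + 1) (n + 1) - qc n (n + 1 + 1) = 2 ^ (n + 1)
    rw [ih, h2]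
    ring

/-- products of shifted terms modulo `N` -/
theorem prod_cong (N p S : ℤ) (h : N ∣ 1 - S * p) (m : ℕ) :
    N ∣ ∏ j ∈ range m, (1 - (j : ℤ) * p) - ∏ j ∈ range m, (p * (S - j)) := by
  induction m with
  | zero => simp
  | succ m ih =>
    rw [prod_range_succ, prod_range_succ]
    have e : (∏ j ∈ range m, (1 - (j : ℤ) * p)) * (1 - (m : ℤ) * p) -
        (∏ j ∈ range m, (p * (S - j))) * (p * (S - m)) =
        (∏ j ∈ range m, (1 - (j : ℤ) * p)) * (1 - S * p) +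
        (∏ j ∈ range m, (1 - (j : ℤ) * p) - ∏ j ∈ range m, (p * (S - j))) * (p * (S - m)) := by
      ring
    rw [e]
    exact dvd_add (h.mul_left _) (ih.mul_right _)

theorem fact_dvd (p k : ℕ) (h : Nat.Coprime p k.factorial) :
    ((k.factorial : ℕ) : ℤ) ∣ ∏ j ∈ range k, (1 - (j : ℤ) * p) := by
  obtain ⟨a, b, hab⟩ : IsCoprime (p : ℤ) ((k.factorial : ℕ) : ℤ) := Nat.isCoprime_iff_coprime.2 h
  have hf : (1 : ℤ) ≤ ((k.factorial : ℕ) : ℤ) := by exact_mod_cast Nat.factorial_pos k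
  set t : ℤ := |a| + k with ht
  have ht0 : 0 ≤ t := by positivity
  set S : ℤ := a + ((k.factorial : ℕ) : ℤ) * t with hS
  have hSk : (k : ℤ) ≤ S := by
    have h1 : t ≤ ((k.factorial : ℕ) : ℤ) * t := by nlinarith
    have h2 := neg_abs_le a
    rw [hS]
    linarith
  have hd : ((k.factorial : ℕ) : ℤ) ∣ 1 - S * p := by
    refine ⟨b - t * p, ?_⟩
    rw [hS, ← hab]
    ring
  have h1 := prod_cong _ p S hd k
  have h2 : ((k.factorial : ℕ) : ℤ) ∣ ∏ j ∈ range k, ((p : ℤ) * (S - j)) := by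
    rw [prod_mul_distrib]
    refine Dvd.dvd.mul_left ?_ _
    obtain ⟨s, hs⟩ : ∃ s : ℕ, S = s := ⟨S.toNat, by rw [Int.toNat_of_nonneg]; omega⟩
    rw [hs]
    have h3 : ∏ j ∈ range k, ((s : ℤ) - j) = ((s.descFactorial k : ℕ) : ℤ) := by
      rw [Nat.descFactorial_eq_prod_range, Nat.cast_prod]
      refine prod_congr rfl fun j hj => ?_
      rw [mem_range] at hj
      rw [Nat.cast_sub (by omega)]
    rw [h3]
    exact Int.natCast_dvd_natCast.2 (Nat.factorial_dvd_descFactorial s k)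
  have h3 := dvd_add h1 h2
  rwa [sub_add_cancel] at h3

theorem prod_one (p : ℕ) (l : ℤ) (hl : l ∣ p) (m : ℕ) :
    l ∣ ∏ j ∈ range m, (1 - (j : ℤ) * p) - 1 := by
  induction m with
  | zero => simp
  | succ m ih =>
    rw [prod_range_succ]
    have e : (∏ j ∈ range m, (1 - (j : ℤ) * p)) * (1 - (m : ℤ) * p) - 1 =
        (∏ j ∈ range m, (1 - (j : ℤ) * p) - 1) -
        (∏ j ∈ range m, (1 - (j : ℤ) * p)) * m * p := by ring
    rw [e]
    exact dvd_sub ih (hl.mul_left _)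

/-- separating the last term -/
theorem N0_split {p : ℕ} (V : ℕ) (hp : 1 ≤ p) (d : ℤ)
    (hd : ∀ k < p, d ∣ dk p k) :
    d ∣ N0 p V - (∏ j ∈ range p, (1 - (j : ℤ) * p)) * 2 ^ (p - 1) := by
  unfold N0
  rw [sum_range_succ]
  have h1 : (∑ i ∈ range (p + 1), if p ≤ i then dk p p * qc p i * (V : ℤ) ^ (i - p) else 0) =
      (∏ j ∈ range p, (1 - (j : ℤ) * p)) * 2 ^ (p - 1) := by
    rw [sum_range_succ]
    have h2 : (∑ i ∈ range p, if p ≤ i then dk p p * qc p i * (V : ℤ) ^ (i - p) else 0) = 0 := by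
      refine sum_eq_zero fun i hi => ?_
      rw [mem_range] at hi
      rw [if_neg (by omega)]
    rw [h2, zero_add, if_pos le_rfl, Nat.sub_self, pow_zero, mul_one]
    have h3 : dk p p = ∏ j ∈ range p, (1 - (j : ℤ) * p) := by
      unfold dk
      rw [Nat.div_self (Nat.factorial_pos p), Nat.cast_one, one_mul]
    obtain ⟨n, rfl⟩ : ∃ n, p = n + 1 := ⟨p - 1, by omega⟩
    rw [h3, qc_top', Nat.add_sub_cancel]
  rw [h1, add_sub_cancel_right]
  refine dvd_sum fun k hk => dvd_sum fun i _ => ?_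
  rw [mem_range] at hk
  split_ifs
  · exact ((hd k hk).mul_right _).mul_right _
  · exact dvd_zero _

end PD

open PD

/- T4 -/
theorem nt_sound {p V : ℕ} {a : ℤ} (hp : 3 ≤ p) (hodd : Odd p)
    (h : (p.factorial : ℤ) * a - (p - 1).factorial = N0 p V) : p.Prime := by
  by_contra hnp
  obtain ⟨l, hlp, hld⟩ := Nat.exists_prime_and_dvd (show p ≠ 1 by omega)
  have hll : l ≤ p := Nat.le_of_dvd (by omega) hld
  have hne : l ≠ p := fun e => hnp (e ▸ hlp)
  have hlt : l < p := lt_of_le_of_ne hll hne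
  have hlpZ : (l : ℤ) ∣ (p : ℤ) := Int.natCast_dvd_natCast.2 hld
  have h1 : (l : ℤ) ∣ ((p - 1).factorial : ℤ) :=
    Int.natCast_dvd_natCast.2 (Nat.dvd_factorial hlp.pos (by omega))
  have h2 : (l : ℤ) ∣ (p.factorial : ℤ) :=
    Int.natCast_dvd_natCast.2 (Nat.dvd_factorial hlp.pos (by omega))
  have h3 : ∀ k < p, (l : ℤ) ∣ dk p k := by
    intro k hk
    unfold dk
    refine Dvd.dvd.mul_right ?_ _
    refine Int.natCast_dvd_natCast.2 ?_
    have h4 : p.factorial = p * (p - 1).factorial := by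
      rw [Nat.mul_factorial_pred (by omega)]
    have h5 : k.factorial ∣ (p - 1).factorial := Nat.factorial_dvd_factorial (by omega)
    rw [h4, Nat.mul_div_assoc _ h5]
    exact hld.mul_right _
  have h4 := N0_split V (by omega : 1 ≤ p) (l : ℤ) h3
  rw [← h] at h4
  have h5 := prod_one p (l : ℤ) hlpZ p
  have h6 : (l : ℤ) ∣ 2 ^ (p - 1) := by
    have e : (2 : ℤ) ^ (p - 1) = ((p.factorial : ℤ) * a - (p - 1).factorial) -
        ((p.factorial : ℤ) * a - (p - 1).factorial -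
          (∏ j ∈ range p, (1 - (j : ℤ) * p)) * 2 ^ (p - 1)) -
        (∏ j ∈ range p, (1 - (j : ℤ) * p) - 1) * 2 ^ (p - 1) := by ring
    rw [e]
    exact dvd_sub (dvd_sub (dvd_sub (h2.mul_right _) h1) h4) (h5.mul_right _)
  have h7 : l ∣ 2 ^ (p - 1) := by exact_mod_cast h6
  have h8 : l ∣ 2 := hlp.dvd_of_dvd_pow h7
  have h9 : l = 2 := (Nat.prime_dvd_prime_iff_eq hlp Nat.prime_two).1 h8
  rw [h9] at hld
  exact (Nat.not_even_iff_odd.2 hodd) (even_iff_two_dvd.2 hld)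

theorem nt_complete {p V : ℕ} (hp : 3 ≤ p) (hpr : p.Prime) :
    ∃ a : ℤ, (p.factorial : ℤ) * a - (p - 1).factorial = N0 p V := by
  have hcop : ∀ k < p, Nat.Coprime p k.factorial := fun k hk =>
    (hpr.coprime_iff_not_dvd).2 fun hd => by
      have := (hpr.dvd_factorial).1 hd
      omega
  have h3 : ∀ k < p, (p.factorial : ℤ) ∣ dk p k := by
    intro k hk
    unfold dk
    obtain ⟨m, hm⟩ := fact_dvd p k (hcop k hk)
    rw [hm, ← mul_assoc]
    refine Dvd.dvd.mul_right ?_ _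
    have h5 : k.factorial ∣ p.factorial := Nat.factorial_dvd_factorial hk.le
    rw [← Nat.cast_mul, Nat.div_mul_cancel h5]
  have h4 := N0_split V (by omega : 1 ≤ p) (p.factorial : ℤ) h3
  -- the last term
  haveI : Fact p.Prime := ⟨hpr⟩
  have hp0 : 1 ≤ p := by omega
  obtain ⟨D, hD⟩ := fact_dvd p (p - 1) (hcop (p - 1) (by omega))
  have hP : ∏ j ∈ range p, (1 - (j : ℤ) * p) =
      ((p - 1).factorial : ℤ) * (D * (1 - ((p - 1 : ℕ) : ℤ) * p)) := by
    obtain ⟨n, rfl⟩ : ∃ n, p = n + 1 := ⟨p - 1, by omega⟩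
    rw [prod_range_succ]
    simp only [Nat.add_sub_cancel] at hD ⊢
    rw [hD]
    ring
  set D' : ℤ := D * (1 - ((p - 1 : ℕ) : ℤ) * p) with hD'
  have hw : ((p - 1).factorial : ZMod p) = -1 := ZMod.wilsons_lemma p
  have hone : ((∏ j ∈ range p, (1 - (j : ℤ) * p) : ℤ) : ZMod p) = 1 := by
    have h5 := prod_one p (p : ℤ) dvd_rfl p
    have h6 := (ZMod.intCast_zmod_eq_zero_iff_dvd _ p).2 h5
    push_cast at h6 ⊢
    exact sub_eq_zero.1 h6
  have hD1 : (D' : ZMod p) = -1 := by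
    rw [hP] at hone
    have h6 : (((p - 1).factorial : ℕ) : ZMod p) * (D' : ZMod p) = 1 := by
      rw [← hone]; push_cast; rfl
    rw [hw] at h6
    rw [← neg_neg (D' : ZMod p)]
    rw [neg_one_mul] at h6
    rw [h6]
  have h2p : (2 : ZMod p) ^ (p - 1) = 1 := by
    apply ZMod.pow_card_sub_one_eq_one
    intro h0
    have h1 : ((2 : ℕ) : ZMod p) = 0 := by exact_mod_cast h0
    rw [ZMod.natCast_eq_zero_iff] at h1
    have := Nat.le_of_dvd (by norm_num) h1
    omega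
  have h7 : (p : ℤ) ∣ D' * 2 ^ (p - 1) + 1 := by
    rw [← ZMod.intCast_zmod_eq_zero_iff_dvd]
    push_cast
    rw [hD1, h2p]
    ring
  have h8 : (p.factorial : ℤ) ∣ (∏ j ∈ range p, (1 - (j : ℤ) * p)) * 2 ^ (p - 1) +
      (p - 1).factorial := by
    have e : (p.factorial : ℤ) = ((p - 1).factorial : ℤ) * p := by
      rw [← Nat.mul_factorial_pred (by omega : p ≠ 0)]
      push_cast
      ring
    rw [hP, e]
    have e2 : ((p - 1).factorial : ℤ) * D' * 2 ^ (p - 1) + (p - 1).factorial =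
        ((p - 1).factorial : ℤ) * (D' * 2 ^ (p - 1) + 1) := by ring
    rw [e2]
    exact mul_dvd_mul_left _ h7
  have h9 := dvd_add h4 h8
  have e3 : N0 p V - (∏ j ∈ range p, (1 - (j : ℤ) * p)) * 2 ^ (p - 1) +
      ((∏ j ∈ range p, (1 - (j : ℤ) * p)) * 2 ^ (p - 1) + (p - 1).factorial) =
      N0 p V + (p - 1).factorial := by ring
  rw [e3] at h9
  obtain ⟨a, ha⟩ := h9
  exact ⟨a, by rw [← ha]; ring⟩

end Pool.Agent.H526E
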