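import Mathlib

set_option autoImplicit false

namespace Pool.Agent.H526E

/-- `e1` bound -/
theorem e1_bound {a : ℝ} (ha : 2 ≤ a) {p : ℕ} (hp : 1 ≤ p) :
    1 - 1 / a ≤ (1 - 1 / (p * a)) ^ p ∧
      (1 - 1 / (p * a)) ^ p * (1 + 1 / a) ≤ 1 := by
  have hpR : (1 : ℝ) ≤ p := by exact_mod_cast hp
  have hpa : 0 < (p : ℝ) * a := by positivity
  have hx0 : 0 ≤ 1 / ((p : ℝ) * a) := by positivity
  have hx1 : 1 / ((p : ℝ) * a) ≤ 1 := by
    rw [div_le_one hpa]; nlinarith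
  constructor
  · have h := one_add_mul_le_pow (a := -(1 / ((p : ℝ) * a))) (by linarith) p
    have h2 : (p : ℝ) * -(1 / ((p : ℝ) * a)) = -(1 / a) := by field_simp
    rw [h2] at h
    calc 1 - 1 / a = 1 + -(1 / a) := by ring
      _ ≤ _ := h
      _ = _ := by ring
  · have h := one_add_mul_le_pow (a := (1 / ((p : ℝ) * a))) (by linarith) p
    have h2 : (p : ℝ) * (1 / ((p : ℝ) * a)) = (1 / a) := by field_simp
    rw [h2] at h
    have h3 : 0 ≤ (1 - 1 / ((p : ℝ) * a)) ^ p := pow_nonneg (by linarith) p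
    calc (1 - 1 / (p * a)) ^ p * (1 + 1 / a) ≤
        (1 - 1 / (p * a)) ^ p * (1 + 1 / (p * a)) ^ p := by gcongr
      _ = ((1 - 1 / (p * a)) * (1 + 1 / (p * a))) ^ p := by rw [mul_pow]
      _ ≤ 1 := by
        apply pow_le_one₀
        · apply mul_nonneg <;> linarith
        · nlinarith

/-- data and basic facts -/
structure Dat (p : ℕ) (B V s a a0 X Xi q : ℝ) : Prop where
  hp : 3 ≤ p
  hB : 1000 ≤ B
  hpB : (p : ℝ) ≤ B
  h2B : (2 : ℝ) ^ p ≤ B
  hs : s * s = V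
  hsB : B ^ 6 ≤ s
  haV : V ≤ a
  ha0V : V ≤ a0
  ha0u : a0 ≤ (2 * V) ^ p
  hX1 : (2 * a) ^ p * (1 - p / (2 * a ^ 2)) ≤ X
  hX2 : X ≤ (2 * a) ^ p
  hXi1 : (2 * a0) ^ p * (1 - p / (2 * a0 ^ 2)) ≤ 2 * Xi
  hXi2 : 2 * Xi ≤ (2 * a0) ^ p
  hq1 : 1 ≤ q
  hq2 : q ≤ 2
  hq3 : |q ^ p - (1 + p / V)| ≤ B / V ^ (p + 1)

variable {p : ℕ} {B V s a a0 X Xi q : ℝ}

theorem Dat.s_big (D : Dat p B V s a a0 X Xi q) : 1000 * B ^ 5 ≤ s := by
  have hB := D.hB
  have h1 : 1000 * B ^ 5 ≤ B * B ^ 5 := by gcongr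
  have h2 : B * B ^ 5 = B ^ 6 := by ring
  linarith [D.hsB]

theorem Dat.s_pos (D : Dat p B V s a a0 X Xi q) : 0 < s := by
  have := D.s_big
  have hB := D.hB
  have : 0 < 1000 * B ^ 5 := by positivity
  linarith [D.s_big]

theorem Dat.s_B2 (D : Dat p B V s a a0 X Xi q) : 1000 * B ^ 2 ≤ s := by
  have hB := D.hB
  have h1 : B ^ 2 ≤ B ^ 5 := pow_le_pow_right₀ (by linarith) (by norm_num)
  linarith [D.s_big]

theorem Dat.s_B (D : Dat p B V s a a0 X Xi q) : 1000 * B ≤ s := by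
  have hB := D.hB
  have h1 : B ^ 1 ≤ B ^ 5 := pow_le_pow_right₀ (by linarith) (by norm_num)
  rw [pow_one] at h1
  linarith [D.s_big]

theorem Dat.V_pos (D : Dat p B V s a a0 X Xi q) : 0 < V := by
  rw [← D.hs]; exact mul_pos D.s_pos D.s_pos

/-- `c3 = p / (2 a^2)` is small -/
theorem Dat.small {b : ℝ} (D : Dat p B V s a a0 X Xi q) (hb : V ≤ b) :
    p / (2 * b ^ 2) ≤ 1 / (1000 * (b * s)) ∧ 0 ≤ p / (2 * b ^ 2) := by
  have hs := D.s_pos
  have hV := D.V_pos
  have hb0 : 0 < b := by linarith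
  have hsB := D.s_B
  have hB := D.hB
  have hpB := D.hpB
  have hp0 : (0 : ℝ) ≤ p := by positivity
  refine ⟨?_, by positivity⟩
  rw [div_le_div_iff₀ (by positivity) (by positivity)]
  have h1 : (p : ℝ) * 1000 ≤ s := by nlinarith
  have h2 : s * s ≤ b := by rw [D.hs]; exact hb
  have h3 : (p : ℝ) * 1000 * (b * s) ≤ s * (b * s) := by gcongr
  have h4 : s * (b * s) = b * (s * s) := by ring
  have h5 : b * (s * s) ≤ b * b := by gcongr
  nlinarith


theorem prod_close {x y α β : ℝ} (hx : |x - 1| ≤ α) (hy : |y - 1| ≤ β) :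
    |x * y - 1| ≤ α + β + α * β := by
  have h : x * y - 1 = (x - 1) + (y - 1) + (x - 1) * (y - 1) := by ring
  rw [h]
  have h1 : |(x - 1) * (y - 1)| ≤ α * β := by
    rw [abs_mul]
    exact mul_le_mul hx hy (abs_nonneg _) (le_trans (abs_nonneg _) hx)
  calc |(x - 1) + (y - 1) + (x - 1) * (y - 1)| ≤ |(x - 1) + (y - 1)| + |(x - 1) * (y - 1)| :=
        abs_add_le _ _
    _ ≤ |x - 1| + |y - 1| + |(x - 1) * (y - 1)| := by gcongr; exact abs_add_le _ _
    _ ≤ _ := by linarith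

theorem Dat.del_small (D : Dat p B V s a a0 X Xi q) : 0 < 1 / (a * s) ∧ 1 / (a * s) ≤ 1 / 1000 := by
  have hs := D.s_pos
  have hV := D.V_pos
  have ha : 0 < a := by linarith [D.haV]
  refine ⟨by positivity, ?_⟩
  rw [div_le_div_iff₀ (by positivity) (by norm_num)]
  have h1 : 1000 ≤ s := by nlinarith [D.s_B, D.hB]
  have h2 : 1 ≤ a := by
    have : 1 ≤ V := by rw [← D.hs]; nlinarith
    linarith [D.haV]
  nlinarith

theorem Dat.e1 (D : Dat p B V s a a0 X Xi q) :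
    |(1 - 1 / (p * a)) ^ p / (1 - 1 / a) - 1| ≤ 1 / (a * s) / 32 := by
  have hs := D.s_pos
  have hV := D.V_pos
  have hsB : 1000 ≤ s := by nlinarith [D.s_B, D.hB]
  have hss : s * s ≤ a := by rw [D.hs]; exact D.haV
  have ha : 1000 ≤ a := by nlinarith
  obtain ⟨h1, h2⟩ := e1_bound (a := a) (by linarith) (p := p) (by have := D.hp; omega)
  have hb : 0 < 1 - 1 / a := by
    have : 1 / a ≤ 1 / 1000 := by
      rw [div_le_div_iff₀ (by linarith) (by norm_num)]; linarith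
    linarith
  have hb1 : 0 < 1 + 1 / a := by positivity
  have h3 : 1 ≤ (1 - 1 / (p * a)) ^ p / (1 - 1 / a) := by
    rw [le_div_iff₀ hb]; linarith
  have h4 : (1 - 1 / (p * a)) ^ p ≤ 1 / (1 + 1 / a) := by
    rw [le_div_iff₀ hb1]; exact h2
  have h5 : (1 - 1 / (p * a)) ^ p / (1 - 1 / a) ≤ 1 + 1 / (a * s) / 32 := by
    rw [div_le_iff₀ hb]
    refine h4.trans ?_
    rw [div_le_iff₀ hb1]
    have e : (1 + 1 / (a * s) / 32) * (1 - 1 / a) * (1 + 1 / a) =
        (1 + 1 / (a * s) / 32) * (1 - 1 / a ^ 2) := by ring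
    rw [e]
    have h6 : 1 / a ^ 2 * 64 ≤ 1 / (a * s) := by
      rw [div_mul_eq_mul_div, div_le_div_iff₀ (by positivity) (by positivity)]
      have : 64 * s ≤ a := by nlinarith
      nlinarith
    have h7 : 0 ≤ 1 / a ^ 2 := by positivity
    have h8 : 1 / (a * s) ≤ 1 / 1000 := D.del_small.2
    have h9 : 0 < 1 / (a * s) := D.del_small.1
    nlinarith
  rw [abs_le]; constructor <;> linarith

theorem Dat.e2 (D : Dat p B V s a a0 X Xi q) (h4 : a ≤ 4 * a0) :
    |(1 + p / V) / q ^ p - 1| ≤ 1 / (a * s) / 32 := by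
  have hs := D.s_pos
  have hV := D.V_pos
  have hB := D.hB
  have ha : 0 < a := by linarith [D.haV]
  have hq : 1 ≤ q ^ p := one_le_pow₀ D.hq1
  have hq0 : 0 < q ^ p := by linarith
  have e : (1 + p / V) / q ^ p - 1 = -(q ^ p - (1 + p / V)) / q ^ p := by
    field_simp; ring
  rw [e, abs_div, abs_neg, abs_of_pos hq0]
  have h5 : |q ^ p - (1 + p / V)| / q ^ p ≤ B / V ^ (p + 1) := by
    calc |q ^ p - (1 + p / V)| / q ^ p ≤ |q ^ p - (1 + p / V)| / 1 := by
          gcongr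
      _ = |q ^ p - (1 + p / V)| := by rw [div_one]
      _ ≤ _ := D.hq3
  refine h5.trans ?_
  rw [div_div, div_le_div_iff₀ (by positivity) (by positivity)]
  have h6 : a ≤ 4 * (2 ^ p * V ^ p) := by
    have := D.ha0u
    rw [mul_pow] at this
    linarith
  have h7 : a ≤ 4 * (B * V ^ p) := by
    have h2B := D.h2B
    have : (2 : ℝ) ^ p * V ^ p ≤ B * V ^ p := by gcongr
    linarith
  have hVp : 0 < V ^ p := by positivity
  have h8 : B * (a * s * 32) ≤ B * (4 * (B * V ^ p) * s * 32) := by gcongr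
  have h9 : B * (4 * (B * V ^ p) * s * 32) = (128 * B ^ 2) * (s * V ^ p) := by ring
  have h10 : (128 * B ^ 2) * (s * V ^ p) ≤ s * (s * V ^ p) := by
    have : 128 * B ^ 2 ≤ s := by nlinarith [D.s_B2]
    gcongr
  have h11 : s * (s * V ^ p) = V ^ (p + 1) := by
    rw [← mul_assoc, D.hs]; ring
  linarith

theorem Dat.e3 (D : Dat p B V s a a0 X Xi q) (h4 : a ≤ 4 * a0) :
    |(2 * Xi / (2 * a0) ^ p) / (X / (2 * a) ^ p) - 1| ≤ 1 / (a * s) / 32 := by
  have hs := D.s_pos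
  have hV := D.V_pos
  have hB := D.hB
  have ha : 0 < a := by linarith [D.haV]
  have ha0 : 0 < a0 := by linarith [D.ha0V]
  have hP : 0 < (2 * a) ^ p := by positivity
  have hP0 : 0 < (2 * a0) ^ p := by positivity
  obtain ⟨s1, s1'⟩ := D.small D.haV
  obtain ⟨s2, s2'⟩ := D.small D.ha0V
  have hd := D.del_small
  set n3 := 2 * Xi / (2 * a0) ^ p with hn3
  set d3 := X / (2 * a) ^ p with hd3
  have n1 : n3 ≤ 1 := by rw [hn3, div_le_one hP0]; exact D.hXi2
  have n2 : 1 - p / (2 * a0 ^ 2) ≤ n3 := by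
    rw [hn3, le_div_iff₀ hP0]; linarith [D.hXi1]
  have d1 : d3 ≤ 1 := by rw [hd3, div_le_one hP]; exact D.hX2
  have d2 : 1 - p / (2 * a ^ 2) ≤ d3 := by
    rw [hd3, le_div_iff₀ hP]; linarith [D.hX1]
  have hds : 1 / (1000 * (a * s)) = 1 / (a * s) / 1000 := by field_simp
  have hds0 : 1 / (1000 * (a0 * s)) ≤ 1 / (a * s) / 250 := by
    rw [div_div, div_le_div_iff₀ (by positivity) (by positivity)]
    nlinarith
  have d3pos : 1 / 2 ≤ d3 := by linarith
  have e : n3 / d3 - 1 = (n3 - d3) / d3 := by field_simp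
  rw [e, abs_div, abs_of_pos (by linarith : 0 < d3)]
  have h5 : |n3 - d3| ≤ 1 / (a * s) / 250 := by
    rw [abs_le]; constructor <;> linarith
  have h6 : |n3 - d3| / d3 ≤ |n3 - d3| / (1 / 2) := by gcongr
  have h7 : |n3 - d3| / (1 / 2) = 2 * |n3 - d3| := by ring
  linarith

/-- the ratio -/
noncomputable def rho (p : ℕ) (V a X Xi : ℝ) : ℝ := X * (a - 1) * V / (2 * Xi * (V + p) * a)

theorem Dat.pos (D : Dat p B V s a a0 X Xi q) : 0 < X ∧ 0 < Xi ∧ 1000 ≤ a ∧ 1000 ≤ a0 ∧ 1000 ≤ V := by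
  have hs := D.s_pos
  have hV := D.V_pos
  have hsB : 1000 ≤ s := by nlinarith [D.s_B, D.hB]
  have hV1 : 1000 ≤ V := by rw [← D.hs]; nlinarith
  have ha : 1000 ≤ a := by linarith [D.haV]
  have ha0 : 1000 ≤ a0 := by linarith [D.ha0V]
  have hP : 0 < (2 * a) ^ p := by positivity
  have hP0 : 0 < (2 * a0) ^ p := by positivity
  obtain ⟨s1, s1'⟩ := D.small D.haV
  obtain ⟨s2, s2'⟩ := D.small D.ha0V
  have t1 : 1 / (1000 * (a * s)) ≤ 1 / 2 := by
    rw [div_le_div_iff₀ (by positivity) (by norm_num)]; nlinarith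
  have t2 : 1 / (1000 * (a0 * s)) ≤ 1 / 2 := by
    rw [div_le_div_iff₀ (by positivity) (by norm_num)]; nlinarith
  have u1 : 0 < (2 * a) ^ p * (1 - p / (2 * a ^ 2)) := mul_pos hP (by linarith)
  have u2 : 0 < (2 * a0) ^ p * (1 - p / (2 * a0 ^ 2)) := mul_pos hP0 (by linarith)
  exact ⟨by linarith [D.hX1], by linarith [D.hXi1], ha, ha0, hV1⟩

theorem Dat.ident (D : Dat p B V s a a0 X Xi q) :
    ((a - 1 / p) / (a0 * q)) ^ p = rho p V a X Xi *
      ((1 - 1 / (p * a)) ^ p / (1 - 1 / a)) * ((1 + p / V) / q ^ p) *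
      ((2 * Xi / (2 * a0) ^ p) / (X / (2 * a) ^ p)) := by
  obtain ⟨hX, hXi, ha, ha0, hV⟩ := D.pos
  have hp0 : (0 : ℝ) < p := by have := D.hp; exact_mod_cast (by omega : 0 < p)
  have hq : 0 < q := by linarith [D.hq1]
  have h1 : a - 1 / p = a * (1 - 1 / (p * a)) := by
    field_simp
  have ha1 : a - 1 ≠ 0 := by linarith
  have hab : 1 - 1 / a = (a - 1) / a := by field_simp
  have hVp : 1 + p / V = (V + p) / V := by field_simp
  have hVp0 : V + p ≠ 0 := by positivity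
  rw [h1, div_pow, mul_pow, mul_pow, hab, hVp, rho, mul_pow 2 a0, mul_pow 2 a]
  generalize (1 - 1 / (p * a)) ^ p = W
  have e1 : a ^ p ≠ 0 := by positivity
  have e2 : a0 ^ p ≠ 0 := by positivity
  have e3 : q ^ p ≠ 0 := by positivity
  have e4 : (2 : ℝ) ^ p ≠ 0 := by positivity
  have e5 : a ≠ 0 := by linarith
  have e6 : V ≠ 0 := by linarith
  have e7 : X ≠ 0 := hX.ne'
  have e8 : Xi ≠ 0 := hXi.ne'
  field_simp

theorem ineq_iff {L R c : ℝ} {r : ℝ} (hR : 0 < R) (hL : L = r ^ 2 * R) (hc : 0 < c) :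
    (L - R) ^ 2 * c ^ 2 < R ^ 2 ↔ |r ^ 2 - 1| < 1 / c := by
  have e : (L - R) ^ 2 * c ^ 2 = ((r ^ 2 - 1) * c) ^ 2 * R ^ 2 := by rw [hL]; ring
  rw [e, lt_div_iff₀ hc]
  constructor
  · intro h
    have h1 : ((r ^ 2 - 1) * c) ^ 2 < 1 := by
      by_contra hcon
      push Not at hcon
      nlinarith [pow_pos hR 2]
    have h2 := (sq_lt_one_iff_abs_lt_one _).1 h1
    rwa [abs_mul, abs_of_pos hc] at h2
  · intro h
    have h1 : |(r ^ 2 - 1) * c| < 1 := by rwa [abs_mul, abs_of_pos hc]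
    have h2 := (sq_lt_one_iff_abs_lt_one _).2 h1
    have hR2 : 0 < R ^ 2 := by positivity
    nlinarith


theorem Dat.rho_pos (D : Dat p B V s a a0 X Xi q) : 0 < rho p V a X Xi := by
  obtain ⟨hX, hXi, ha, ha0, hV⟩ := D.pos
  unfold rho
  have : 0 < a - 1 := by linarith
  positivity

theorem Dat.ineq (D : Dat p B V s a a0 X Xi q) :
    ((X * (a - 1) * V) ^ 2 - (2 * Xi * (V + p) * a) ^ 2) ^ 2 * (a ^ 2 * V) <
      ((2 * Xi * (V + p) * a) ^ 2) ^ 2 ↔ |rho p V a X Xi ^ 2 - 1| < 1 / (a * s) := by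
  obtain ⟨hX, hXi, ha, ha0, hV⟩ := D.pos
  have hs := D.s_pos
  have hR : 0 < 2 * Xi * (V + p) * a := by positivity
  have e : a ^ 2 * V = (a * s) ^ 2 := by rw [← D.hs]; ring
  rw [e]
  apply ineq_iff (by positivity) _ (by positivity)
  unfold rho
  rw [div_pow]
  field_simp

theorem abs_sub_one_le_sq {r : ℝ} (hr : 0 < r) : |r - 1| ≤ |r ^ 2 - 1| := by
  have e : r ^ 2 - 1 = (r - 1) * (r + 1) := by ring
  rw [e, abs_mul, abs_of_pos (by linarith : 0 < r + 1)]
  nlinarith [abs_nonneg (r - 1)]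

theorem abs_sub_one_le_pow {r : ℝ} (hr : 0 ≤ r) {n : ℕ} (hn : 1 ≤ n) : |r - 1| ≤ |r ^ n - 1| := by
  obtain ⟨m, rfl⟩ : ∃ m, n = m + 1 := ⟨n - 1, by omega⟩
  rcases le_total 1 r with h | h
  · have h1 : 1 ≤ r ^ m := one_le_pow₀ h
    have h2 : r ≤ r ^ (m + 1) := by rw [pow_succ]; nlinarith
    rw [abs_of_nonneg (by linarith), abs_of_nonneg (by linarith)]; linarith
  · have h1 : r ^ m ≤ 1 := pow_le_one₀ hr h
    have h2 : r ^ (m + 1) ≤ r := by rw [pow_succ]; nlinarith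
    rw [abs_of_nonpos (by linarith), abs_of_nonpos (by linarith)]; linarith

theorem Dat.a_le (D : Dat p B V s a a0 X Xi q)
    (h : |rho p V a X Xi ^ 2 - 1| < 1 / (a * s)) : a ≤ 4 * a0 := by
  obtain ⟨hX, hXi, ha, ha0, hV⟩ := D.pos
  have hrp := D.rho_pos
  have hd := D.del_small
  have h1 := (abs_sub_one_le_sq hrp).trans h.le
  have h2 : rho p V a X Xi ≤ 2 := by have := (abs_le.1 h1).2; linarith
  by_contra hcon
  push Not at hcon
  have hp := D.hp
  have h3 : (4 * (2 * a0)) ^ p ≤ (2 * a) ^ p := pow_le_pow_left₀ (by positivity) (by linarith) p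
  rw [mul_pow] at h3
  have h4 : (4 : ℝ) ^ 3 ≤ 4 ^ p := pow_le_pow_right₀ (by norm_num) hp
  have hP : 0 < (2 * a) ^ p := by positivity
  have hP0 : 0 < (2 * a0) ^ p := by positivity
  have h5 : 64 * (2 * a0) ^ p ≤ (2 * a) ^ p := by
    calc 64 * (2 * a0) ^ p = 4 ^ 3 * (2 * a0) ^ p := by norm_num
      _ ≤ 4 ^ p * (2 * a0) ^ p := by gcongr
      _ ≤ _ := h3
  obtain ⟨s1, s1'⟩ := D.small D.haV
  have hds : 1 / (1000 * (a * s)) = 1 / (a * s) / 1000 := by
    have := D.s_pos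
    field_simp
  have h6 : (2 * a) ^ p * (1 / 2) ≤ X := by
    refine le_trans ?_ D.hX1
    gcongr
    linarith
  have h7 : X * (a - 1) * V ≤ 2 * (2 * Xi * (V + p) * a) := by
    have := h2
    unfold rho at this
    rwa [div_le_iff₀ (by positivity)] at this
  have h8 : 2 * Xi ≤ (2 * a) ^ p / 64 := by
    have := D.hXi2
    rw [le_div_iff₀ (by norm_num)]; linarith
  have hpV : (p : ℝ) ≤ V := by
    have h9 : (p : ℝ) ≤ B := D.hpB
    have h10 := D.s_B
    have hB := D.hB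
    have : s ≤ V := by rw [← D.hs]; nlinarith
    linarith
  -- X (a-1) V ≥ P/2 * a/2 * V ; RHS ≤ 2 * P/64 * 2V * a
  have h11 : (2 * a) ^ p * (1 / 2) * (a / 2) * V ≤ X * (a - 1) * V := by
    gcongr
    linarith
  have h12 : 2 * (2 * Xi * (V + p) * a) ≤ 2 * ((2 * a) ^ p / 64 * (2 * V) * a) := by
    gcongr
    linarith
  have h13 : (2 * a) ^ p * (1 / 2) * (a / 2) * V ≤ 2 * ((2 * a) ^ p / 64 * (2 * V) * a) := by
    linarith
  have h14 : 0 < (2 * a) ^ p * a * V := by positivity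
  nlinarith

theorem Dat.real_sound (D : Dat p B V s a a0 X Xi q)
    (h : |rho p V a X Xi ^ 2 - 1| < 1 / (a * s)) : |a - 1 / p - a0 * q| ≤ 8 / s := by
  obtain ⟨hX, hXi, ha, ha0, hV⟩ := D.pos
  have hrp := D.rho_pos
  have hd := D.del_small
  have hs := D.s_pos
  have h4 := D.a_le h
  have h1 := (abs_sub_one_le_sq hrp).trans h.le
  have k1 := prod_close h1 D.e1
  have k2 := prod_close k1 (D.e2 h4)
  have k3 := prod_close k2 (D.e3 h4)
  rw [← D.ident] at k3
  set δ := 1 / (a * s) with hδ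
  have k4 : |((a - 1 / p) / (a0 * q)) ^ p - 1| ≤ 2 * δ := by
    refine k3.trans ?_
    have hδ2 : δ * δ ≤ δ / 1000 := by nlinarith [hd.1, hd.2]
    have hδ3 : δ * δ * δ ≤ δ / 1000 := by nlinarith [hd.1, hd.2, mul_pos hd.1 hd.1]
    have hδ4 : δ * δ * δ * δ ≤ δ / 1000 := by
      nlinarith [hd.1, hd.2, mul_pos hd.1 hd.1, mul_pos (mul_pos hd.1 hd.1) hd.1]
    nlinarith [hd.1]
  have hp1 : 1 ≤ p := by have := D.hp; omega
  have hpR : (1 : ℝ) ≤ p := by exact_mod_cast hp1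
  have hq := D.hq1
  have ha0q : 0 < a0 * q := by positivity
  have hpi : 1 / (p : ℝ) ≤ 1 := by rw [div_le_one (by linarith)]; exact hpR
  have hu0 : 0 ≤ (a - 1 / p) / (a0 * q) := by
    apply div_nonneg _ ha0q.le
    linarith
  have k5 := (abs_sub_one_le_pow hu0 hp1).trans k4
  have e : (a - 1 / p) / (a0 * q) - 1 = (a - 1 / p - a0 * q) / (a0 * q) := by
    field_simp
  rw [e, abs_div, abs_of_pos ha0q, div_le_iff₀ ha0q] at k5
  have k6 : a0 * q ≤ 2 * a := by
    have h6 := (abs_le.1 k5).1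
    have : 2 * δ * (a0 * q) ≤ 1 / 2 * (a0 * q) := by
      have : 2 * δ ≤ 1 / 2 := by linarith [hd.2]
      gcongr
    have h7 : 0 ≤ 1 / (p : ℝ) := by positivity
    linarith
  calc |a - 1 / p - a0 * q| ≤ 2 * δ * (a0 * q) := k5
    _ ≤ 2 * δ * (2 * a) := by
      have := hd.1
      gcongr
    _ = 4 / s := by rw [hδ]; field_simp; ring
    _ ≤ 8 / s := by gcongr; norm_num

set_option maxHeartbeats 1000000 in
theorem Dat.real_complete (D : Dat p B V s a a0 X Xi q) (h4 : a ≤ 4 * a0)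
    (h : |a - 1 / p - a0 * q| ≤ B ^ 3 / V) : |rho p V a X Xi ^ 2 - 1| < 1 / (a * s) := by
  obtain ⟨hX, hXi, ha, ha0, hV⟩ := D.pos
  have hrp := D.rho_pos
  have hd := D.del_small
  have hs := D.s_pos
  have hB := D.hB
  have hq := D.hq1
  have ha0q : 0 < a0 * q := by positivity
  have hp1 : 1 ≤ p := by have := D.hp; omega
  set u := (a - 1 / p) / (a0 * q) with hu
  have e : u - 1 = (a - 1 / p - a0 * q) / (a0 * q) := by
    rw [hu]; field_simp
  set η := 4 * B ^ 3 / (V * a) with hη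
  have hη0 : 0 < η := by rw [hη]; positivity
  have k1 : |u - 1| ≤ η := by
    rw [e, abs_div, abs_of_pos ha0q, div_le_iff₀ ha0q]
    refine h.trans ?_
    rw [hη, div_mul_eq_mul_div, div_le_div_iff₀ (by positivity) (by positivity)]
    have : a ≤ 4 * (a0 * q) := by nlinarith
    have hc : 0 ≤ B ^ 3 * V := by positivity
    nlinarith
  -- p * η ≤ δ / 100
  have k2 : (p : ℝ) * η ≤ 1 / (a * s) / 100 := by
    rw [hη, ← mul_div_assoc, div_div, div_le_div_iff₀ (by positivity) (by positivity)]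
    have h1 : (p : ℝ) * (4 * B ^ 3) * (a * s * 100) ≤ B * (4 * B ^ 3) * (a * s * 100) := by
      have := D.hpB
      gcongr
    have h2 : B * (4 * B ^ 3) * (a * s * 100) = (400 * B ^ 4) * (s * a) := by ring
    have h3 : 400 * B ^ 4 ≤ s := by
      have hBB : B ^ 4 ≤ B ^ 5 := pow_le_pow_right₀ (by linarith) (by norm_num)
      nlinarith [D.s_big, pow_pos (by linarith : 0 < B) 4]
    have h4 : (400 * B ^ 4) * (s * a) ≤ s * (s * a) := by gcongr
    have h5 : s * (s * a) = V * a := by rw [← D.hs]; ring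
    linarith
  have hu1 : 0 ≤ u := by
    have h1 := (abs_le.1 k1).1
    have h2 : η ≤ p * η := by
      have : (1 : ℝ) ≤ p := by exact_mod_cast hp1
      nlinarith
    linarith [hd.2]
  have k3 : |u ^ p - 1| ≤ 1 / (a * s) / 32 := by
    have hpη : (p : ℝ) * η ≤ 1 / 2 := by linarith [hd.2]
    have h1 := (abs_le.1 k1).1
    have h2 := (abs_le.1 k1).2
    have hη1 : η ≤ 1 / 2 := by
      have : (1 : ℝ) ≤ p := by exact_mod_cast hp1
      nlinarith
    rw [abs_le]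
    constructor
    · have h3 := one_add_mul_le_pow (a := u - 1) (by linarith) p
      have h4 : (1 + (u - 1)) ^ p = u ^ p := by congr 1; ring
      rw [h4] at h3
      have h5 : -((p : ℝ) * η) ≤ p * (u - 1) := by
        have : (p : ℝ) * (-η) ≤ p * (u - 1) := by gcongr; 
        linarith
      linarith [hd.1]
    · -- u^p (1-η)^p ≤ ... use u ≤ 1/(1-η)
      have h3 := one_add_mul_le_pow (a := -η) (by linarith) p
      have h4 : u * (1 + -η) ≤ 1 := by nlinarith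
      have h5 : u ^ p * (1 + -η) ^ p ≤ 1 := by
        rw [← mul_pow]
        apply pow_le_one₀ _ h4
        apply mul_nonneg hu1; linarith
      have hup : 0 ≤ u ^ p := pow_nonneg hu1 p
      have h6 : u ^ p * (1 + p * -η) ≤ 1 := by
        refine le_trans ?_ h5
        gcongr
      have h7 : 1 / 2 ≤ 1 + (p : ℝ) * -η := by linarith
      have h8a : u ^ p * (1 / 2) ≤ u ^ p * (1 + p * -η) := mul_le_mul_of_nonneg_left h7 hup
      have h8 : u ^ p ≤ 2 := by linarith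
      have h9a : 0 ≤ (p : ℝ) * η := by positivity
      have h9 : u ^ p * ((p : ℝ) * η) ≤ 2 * ((p : ℝ) * η) := mul_le_mul_of_nonneg_right h8 h9a
      have h10 : u ^ p * (1 + p * -η) = u ^ p - u ^ p * ((p : ℝ) * η) := by ring
      linarith [hd.1]
  have hid := D.ident
  rw [← hu] at hid
  have l1 := D.e1
  have l2 := D.e2 h4
  have l3 := D.e3 h4
  set E1 := (1 - 1 / (p * a)) ^ p / (1 - 1 / a)
  set E2 := (1 + p / V) / q ^ p
  set E3 := (2 * Xi / (2 * a0) ^ p) / (X / (2 * a) ^ p)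
  set δ := 1 / (a * s) with hδ
  have m1 := prod_close (prod_close l1 l2) l3
  have m2 : |E1 * E2 * E3 - 1| ≤ δ / 10 := by
    refine m1.trans ?_
    have hδ2 : δ * δ ≤ δ / 1000 := by nlinarith [hd.1, hd.2]
    have hδ3 : δ * δ * δ ≤ δ / 1000 := by nlinarith [hd.1, hd.2, mul_pos hd.1 hd.1]
    nlinarith [hd.1]
  set E := E1 * E2 * E3 with hE
  have hid2 : u ^ p = rho p V a X Xi * E := by rw [hid, hE]; ring
  set r := rho p V a X Xi
  have m3 := abs_le.1 m2
  have m4 := abs_le.1 k3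
  rw [hid2] at m4
  have hδs := hd.2
  have hδp := hd.1
  have hr1 : r ≤ 1 + δ / 4 := by
    by_contra hcon
    push Not at hcon
    have : (1 + δ / 4) * (1 - δ / 10) < r * E := by
      apply mul_lt_mul hcon (by linarith) (by linarith) (by linarith)
    nlinarith
  have hr2 : 1 - δ / 4 ≤ r := by
    by_contra hcon
    push Not at hcon
    have : r * E ≤ (1 - δ / 4) * (1 + δ / 10) := by
      apply mul_le_mul hcon.le (by linarith) (by linarith) (by linarith)
    nlinarith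
  rw [abs_lt]
  constructor <;> nlinarith

end Pool.Agent.H526E
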