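import Mathlib
import Pool.Agent.H689R2.Nine
import Pool.Agent.H526E.Defs
import Pool.Agent.H526E.LemA
import Pool.Agent.H526E.LemB
import Pool.Agent.H526E.PartC
import Pool.Agent.H526E.PartD
import Pool.Agent.H526E.Real8

set_option autoImplicit false

namespace Pool.Agent.H526E

open Pell Finset Pool.Agent.H689R2

theorem growth_num {p : ℕ} (hp : 3 ≤ p) :
    (p ^ (p ^ 2)) ^ 12 ≤ (2 * (8 * p ^ 2) - 1) ^ (8 * p ^ 2 - 2) := by
  have h9 : 9 ≤ p ^ 2 := by nlinarith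
  calc (p ^ (p ^ 2)) ^ 12 = p ^ (p ^ 2 * 12) := by rw [← pow_mul]
    _ ≤ p ^ (2 * (8 * p ^ 2 - 2)) := Nat.pow_le_pow_right (by omega) (by omega)
    _ = (p ^ 2) ^ (8 * p ^ 2 - 2) := by rw [pow_mul]
    _ ≤ _ := Nat.pow_le_pow_left (by omega) _

theorem growth {p V v : ℕ} (hp : 3 ≤ p) (hV : V = (8 * p ^ 2 - 1) * (v + 1))
    (s : IsSquare ((((8 * p ^ 2 : ℕ) : ℤ) ^ 2 - 1) * (V : ℤ) ^ 2 + 1)) :
    (p ^ (p ^ 2)) ^ 12 ≤ V := by
  have h9 : 9 ≤ p ^ 2 := by nlinarith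
  obtain ⟨b, hb⟩ : ∃ b, b = 8 * p ^ 2 := ⟨_, rfl⟩
  rw [← hb] at s hV
  have hb1 : 1 < b := by omega
  obtain ⟨j, hj⟩ := (isSquare_int_iff hb1 V).1 s
  have h1 := yn_modEq_a_sub_one hb1 j
  rw [← hj] at h1
  have h2 : V ≡ 0 [MOD b - 1] := by
    rw [hV]; exact (dvd_mul_right _ _).modEq_zero_nat
  have h3 : b - 1 ∣ j := (Nat.modEq_zero_iff_dvd).1 (h1.symm.trans h2)
  have hVpos : 0 < V := by
    rw [hV]; apply Nat.mul_pos <;> omega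
  have hj0 : 0 < j := by
    rcases Nat.eq_zero_or_pos j with h0 | h0
    · rw [h0] at hj; simp at hj; omega
    · exact h0
  have h4 : b - 1 ≤ j := Nat.le_of_dvd hj0 h3
  calc (p ^ (p ^ 2)) ^ 12 ≤ (2 * (8 * p ^ 2) - 1) ^ (8 * p ^ 2 - 2) := growth_num hp
    _ = (2 * b - 1) ^ (b - 2) := by rw [hb]
    _ ≤ yn hb1 (b - 2 + 1) := yn_lower hb1 _
    _ ≤ yn hb1 j := (strictMono_y hb1).monotone (by omega)
    _ = V := hj.symm

theorem growth_complete {p : ℕ} (hp : 3 ≤ p) :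
    ∃ v V : ℕ, V = (8 * p ^ 2 - 1) * (v + 1) ∧
      IsSquare ((((8 * p ^ 2 : ℕ) : ℤ) ^ 2 - 1) * (V : ℤ) ^ 2 + 1) := by
  have h9 : 9 ≤ p ^ 2 := by nlinarith
  obtain ⟨b, hb⟩ : ∃ b, b = 8 * p ^ 2 := ⟨_, rfl⟩
  rw [← hb]
  have hb1 : 1 < b := by omega
  have h1 := yn_modEq_a_sub_one hb1 (b - 1)
  have h2 : b - 1 ∣ yn hb1 (b - 1) :=
    (Nat.modEq_zero_iff_dvd).1 (h1.trans ((dvd_refl _).modEq_zero_nat))
  obtain ⟨c, hc⟩ := h2
  have hpos : 0 < yn hb1 (b - 1) := yn_pos hb1 (by omega)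
  have hc0 : 0 < c := by
    rcases Nat.eq_zero_or_pos c with h0 | h0
    · rw [h0] at hc; omega
    · exact h0
  refine ⟨c - 1, yn hb1 (b - 1), ?_, (isSquare_int_iff hb1 _).2 ⟨_, rfl⟩⟩
  rw [Nat.sub_add_cancel hc0]; exact hc

theorem xn_upper {V : ℕ} (h : 1 < V) (n : ℕ) : xn h n ≤ (2 * V) ^ n := by
  induction n using Nat.strong_induction_on with
  | _ n ih =>
    match n, ih with
    | 0, _ => simp
    | 1, _ => simp; omega
    | n + 2, ih =>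
      have h1 := ih (n + 1) (by omega)
      have h2 := xn_succ_succ h n
      calc xn h (n + 2) ≤ 2 * V * xn h (n + 1) := by omega
        _ ≤ 2 * V * (2 * V) ^ (n + 1) := Nat.mul_le_mul_left _ h1
        _ = _ := by ring

theorem mkDat {p V a : ℕ} (hp : 3 ≤ p) (hV : (p ^ (p ^ 2)) ^ 12 ≤ V) (h1V : 1 < V) (h1a : 1 < a)
    (haV : V ≤ a) :
    Dat p ((p : ℝ) ^ (p ^ 2)) V (Real.sqrt V) a (xn h1V p) (yn h1a (p + 1)) (xn h1V (p * p))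
      (Q p (1 / V)) := by
  have h9 : 9 ≤ p ^ 2 := by nlinarith
  have hpp : p ≤ p ^ 2 := by nlinarith
  have hV0 : (0 : ℝ) < V := by exact_mod_cast (by omega : 0 < V)
  have hB : 1000 ≤ p ^ (p ^ 2) := by
    calc 1000 ≤ 3 ^ 9 := by norm_num
      _ ≤ p ^ 9 := Nat.pow_le_pow_left hp 9
      _ ≤ p ^ (p ^ 2) := Nat.pow_le_pow_right (by omega) h9
  have hVR : ((p : ℝ) ^ (p ^ 2)) ^ 12 ≤ V := by exact_mod_cast hV
  have hB1 : (1 : ℝ) ≤ (p : ℝ) ^ (p ^ 2) := by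
    have : (1000 : ℝ) ≤ (p : ℝ) ^ (p ^ 2) := by exact_mod_cast hB
    linarith
  have hBV : (p : ℝ) ^ (p ^ 2) ≤ V := by
    calc (p : ℝ) ^ (p ^ 2) = ((p : ℝ) ^ (p ^ 2)) ^ 1 := by rw [pow_one]
      _ ≤ ((p : ℝ) ^ (p ^ 2)) ^ 12 := pow_le_pow_right₀ hB1 (by norm_num)
      _ ≤ V := hVR
  obtain ⟨q1, q2, q3⟩ := Q_pow (p := p) hp (y := 1 / (V : ℝ)) (by positivity)
    (by rw [one_div_mul_eq_div, div_le_one hV0]; exact hBV)
  obtain ⟨y1, y2⟩ := yn_approx h1a p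
  obtain ⟨x1, x2⟩ := xn_approx h1V (p := p) (by omega)
  refine ⟨hp, by exact_mod_cast hB, ?_, ?_, ?_, ?_, by exact_mod_cast haV, ?_, ?_, y1, y2, x1, x2,
    q1, q2, ?_⟩
  · exact_mod_cast (Nat.le_self_pow (by omega) p : p ≤ p ^ (p ^ 2))
  · have : 2 ^ p ≤ p ^ (p ^ 2) :=
      (Nat.pow_le_pow_left (by omega) p).trans (Nat.pow_le_pow_right (by omega) hpp)
    exact_mod_cast this
  · exact Real.mul_self_sqrt hV0.le
  · apply Real.le_sqrt_of_sq_le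
    rw [← pow_mul]; exact hVR
  · have : xn h1V 1 ≤ xn h1V p := (strictMono_x h1V).monotone (by omega)
    rw [xn_one] at this
    exact_mod_cast this
  · exact_mod_cast xn_upper h1V p
  · calc _ = |Q p (1 / V) ^ p - (1 + p * (1 / V))| := by rw [mul_one_div]
      _ ≤ _ := q3
      _ = _ := by rw [one_div_pow, mul_one_div]

end Pool.Agent.H526E
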