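import Mathlib
import Pool.Agent.H526E.Core8

set_option autoImplicit false

namespace Pool.Agent.H526E

open Pell Finset Pool.Agent.H689R2

/-- the polynomial inequality in the form used by `Real8`. -/
def iL {R : Type*} [CommRing R] (V a X : R) : R := (X * (a - 1) * V) ^ 2
def iR {R : Type*} [CommRing R] (p V a Z : R) : R := 4 * ((V ^ 2 - 1) * Z ^ 2 + 1) * ((V + p) * a) ^ 2
def iIn {R : Type*} [CommRing R] (p V a X Z : R) : R :=
  iR p V a Z ^ 2 - (iL V a X - iR p V a Z) ^ 2 * (a ^ 2 * V)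

theorem iR_eq {V a p : ℕ} (h1V : 1 < V) (n : ℕ) :
    iR (p : ℝ) V a (yn h1V n) = (2 * (xn h1V n : ℝ) * (V + p) * a) ^ 2 := by
  have h1 := xn_sq h1V n
  have h2A : 1 ≤ V * V := Nat.mul_pos (by omega) (by omega)
  have h3 : ((xn h1V n * xn h1V n : ℕ) : ℝ) = (((V * V - 1) * (yn h1V n * yn h1V n) + 1 : ℕ) : ℝ) := by
    exact_mod_cast h1
  push_cast [Nat.cast_sub h2A] at h3
  have h4 : ((V : ℝ) ^ 2 - 1) * (yn h1V n : ℝ) ^ 2 + 1 = (xn h1V n : ℝ) ^ 2 := by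
    rw [sq, sq, sq, h3]
  unfold iR
  rw [h4]; ring

theorem ineq_real {p V a : ℕ} (hp : 3 ≤ p) (hV : (p ^ (p ^ 2)) ^ 12 ≤ V) (h1V : 1 < V)
    (h1a : 1 < a) (haV : V ≤ a) :
    (0 : ℤ) < iIn (p : ℤ) V a (yn h1a (p + 1)) (yn h1V (p * p)) ↔
      |rho p V a (yn h1a (p + 1)) (xn h1V (p * p)) ^ 2 - 1| < 1 / ((a : ℝ) * Real.sqrt V) := by
  have D := mkDat hp hV h1V h1a haV
  rw [← D.ineq]
  have e : ((iIn (p : ℤ) V a (yn h1a (p + 1)) (yn h1V (p * p)) : ℤ) : ℝ) =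
      iIn (p : ℝ) V a (yn h1a (p + 1)) (yn h1V (p * p)) := by
    unfold iIn iR iL; push_cast; ring
  have e2 : (0 : ℤ) < iIn (p : ℤ) V a (yn h1a (p + 1)) (yn h1V (p * p)) ↔
      (0 : ℝ) < iIn (p : ℝ) V a (yn h1a (p + 1)) (yn h1V (p * p)) := by
    rw [← e]; exact_mod_cast Iff.rfl
  rw [e2]
  unfold iIn iL
  rw [iR_eq h1V (p * p)]
  constructor <;> intro h <;> linarith

theorem near_arith {p V : ℕ} {a N : ℤ} {B s q a0 : ℝ} (hs : 0 < s) (hV : 0 < (V : ℝ))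
    (hp : 3 ≤ p) (hB : (p.factorial : ℝ) ≤ B) (hB1 : 1000 ≤ B) (hsB : 1000 * B ≤ s)
    (hVB : 1000 * B ^ 3 ≤ V)
    (h1 : |(a : ℝ) - 1 / p - a0 * q| ≤ 8 / s)
    (h2 : |(p.factorial : ℝ) * a0 * q - N| ≤ B ^ 3 / V) :
    (p.factorial : ℤ) * a - (p - 1).factorial = N := by
  have hf : (p.factorial : ℝ) = p * ((p - 1).factorial : ℝ) := by
    have : p.factorial = p * (p - 1).factorial := (Nat.mul_factorial_pred (by omega)).symm
    exact_mod_cast this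
  have hpR : (0 : ℝ) < p := by exact_mod_cast (by omega : 0 < p)
  have e : ((p.factorial : ℝ) * a - (p - 1).factorial - N) =
      p.factorial * ((a : ℝ) - 1 / p - a0 * q) + ((p.factorial : ℝ) * a0 * q - N) := by
    have : (p.factorial : ℝ) * (1 / p) = (p - 1).factorial := by
      rw [hf]; field_simp
    rw [mul_sub, mul_sub, this]; ring
  have hfp : (0 : ℝ) < p.factorial := by exact_mod_cast Nat.factorial_pos p
  have h3 : |(p.factorial : ℝ) * ((a : ℝ) - 1 / p - a0 * q)| ≤ 8 / 1000 := by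
    rw [abs_mul, abs_of_pos hfp]
    calc (p.factorial : ℝ) * |(a : ℝ) - 1 / p - a0 * q| ≤ B * (8 / s) := by gcongr
      _ ≤ 8 / 1000 := by
        rw [← mul_div_assoc, div_le_div_iff₀ hs (by norm_num)]; linarith
  have h4 : B ^ 3 / V ≤ 1 / 1000 := by
    rw [div_le_div_iff₀ hV (by norm_num)]; linarith
  have h5 : |((p.factorial : ℝ) * a - (p - 1).factorial - N)| < 1 := by
    rw [e]
    refine lt_of_le_of_lt (abs_add_le _ _) ?_
    linarith
  have h6 : |(p.factorial : ℤ) * a - (p - 1).factorial - N| < 1 := by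
    have : ((|(p.factorial : ℤ) * a - (p - 1).factorial - N| : ℤ) : ℝ) < ((1 : ℤ) : ℝ) := by
      push_cast; exact h5
    exact_mod_cast this
  have h7 := Int.abs_lt_one_iff.1 h6
  linarith

theorem X_index {p V a X Z : ℕ} (hp : 3 ≤ p) (hV : (p ^ (p ^ 2)) ^ 12 ≤ V) (h1V : 1 < V)
    (h1a : 1 < a) (haV : V ≤ a) (hZ : Z = yn h1V (p * p))
    (hXm : X ≡ p + 1 [MOD a - 1]) (sX : IsSquare (((a : ℤ) ^ 2 - 1) * (X : ℤ) ^ 2 + 1))
    (hR : (0 : ℤ) < iIn (p : ℤ) V a X Z) : X = yn h1a (p + 1) := by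
  have h9 : 9 ≤ p ^ 2 := by nlinarith
  have hp2 : p ^ 2 ≤ p ^ (p ^ 2) := Nat.pow_le_pow_right (by omega) (by nlinarith)
  have hB : 1000 ≤ p ^ (p ^ 2) := by
    calc 1000 ≤ 3 ^ 9 := by norm_num
      _ ≤ p ^ 9 := Nat.pow_le_pow_left hp 9
      _ ≤ p ^ (p ^ 2) := Nat.pow_le_pow_right (by omega) h9
  have hBV : p ^ (p ^ 2) * 1000 ≤ V := by
    calc p ^ (p ^ 2) * 1000 ≤ p ^ (p ^ 2) * p ^ (p ^ 2) := Nat.mul_le_mul_left _ hB
      _ = (p ^ (p ^ 2)) ^ 2 := by ring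
      _ ≤ (p ^ (p ^ 2)) ^ 12 := Nat.pow_le_pow_right (by omega) (by norm_num)
      _ ≤ V := hV
  obtain ⟨i, hi⟩ := (isSquare_int_iff h1a X).1 sX
  have h1 := yn_modEq_a_sub_one h1a i
  rw [← hi] at h1
  have h2 : i ≡ p + 1 [MOD a - 1] := h1.symm.trans hXm
  have hpp : p ≤ p ^ 2 := by nlinarith
  rcases idx_cases h2 (by omega) with h3 | h3
  · rw [hi, h3]
  · exfalso
    have hX : V ^ (2 * p ^ 2 + 4) ≤ X := by
      calc V ^ (2 * p ^ 2 + 4) ≤ (2 * a - 1) ^ (2 * p ^ 2 + 4) := Nat.pow_le_pow_left (by omega) _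
        _ ≤ (2 * a - 1) ^ (p + a - 1) := Nat.pow_le_pow_right (by omega) (by omega)
        _ ≤ yn h1a (p + a - 1 + 1) := yn_lower h1a _
        _ ≤ yn h1a i := (strictMono_y h1a).monotone (by omega)
        _ = X := hi.symm
    -- upper bound from the inequality
    have hXi := xn_upper h1V (p * p)
    have h5 : (2 * V) ^ (p * p) ≤ V ^ (2 * p ^ 2) := by
      calc (2 * V) ^ (p * p) ≤ (V * V) ^ (p * p) :=
            Nat.pow_le_pow_left (Nat.mul_le_mul_right _ (by omega)) _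
        _ = V ^ (2 * p ^ 2) := by rw [← sq, ← pow_mul]; congr 1; ring
    have h6 : xn h1V (p * p) * V ^ 4 ≤ X := by
      calc xn h1V (p * p) * V ^ 4 ≤ V ^ (2 * p ^ 2) * V ^ 4 := Nat.mul_le_mul_right _ (hXi.trans h5)
        _ = V ^ (2 * p ^ 2 + 4) := by rw [← pow_add]
        _ ≤ X := hX
    have hxpos : 0 < xn h1V (p * p) := by
      have := (strictMono_x h1V).monotone (Nat.zero_le (p * p))
      rw [xn_zero] at this; omega
    -- real form
    have e : ((iIn (p : ℤ) V a X Z : ℤ) : ℝ) = iIn (p : ℝ) V a X Z := by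
      unfold iIn iR iL; push_cast; ring
    have hR2 : (0 : ℝ) < iIn (p : ℝ) V a X Z := by
      rw [← e]; exact_mod_cast hR
    unfold iIn iL at hR2
    rw [hZ, iR_eq h1V (p * p)] at hR2
    have hVR : (1000 : ℝ) ≤ V := by exact_mod_cast (by omega : 1000 ≤ V)
    have haR : (V : ℝ) ≤ a := by exact_mod_cast haV
    have hpV : (p : ℝ) ≤ V := by exact_mod_cast (by omega : p ≤ V)
    have hxR : (0 : ℝ) < xn h1V (p * p) := by exact_mod_cast hxpos
    have h6R : (xn h1V (p * p) : ℝ) * (V : ℝ) ^ 4 ≤ X := by exact_mod_cast h6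
    generalize (xn h1V (p * p) : ℝ) = ξ at hR2 hxR h6R
    have hpR : (0 : ℝ) ≤ p := by positivity
    -- T := 2 ξ (V+p) a ; S := X (a-1) V;  S ≥ 2 T
    have hT : 0 < 2 * ξ * (V + p) * a := by positivity
    have hS : 2 * (2 * ξ * (V + p) * a) ≤ X * (a - 1) * V := by
      have k1 : 2 * (2 * ξ * (V + p) * a) ≤ 2 * (2 * ξ * (V + V) * a) := by gcongr
      have k2 : 2 * (2 * ξ * (V + V) * a) = 8 * ξ * V * a := by ring
      have k3 : (a : ℝ) / 2 ≤ a - 1 := by linarith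
      have k4 : ξ * V ^ 4 * (a / 2) * V ≤ X * (a - 1) * V := by gcongr
      have k5 : 8 * ξ * V * a ≤ ξ * V ^ 4 * (a / 2) * V := by
        have k6 : (16 : ℝ) ≤ V ^ 4 := by
          calc (16 : ℝ) ≤ V := by linarith
            _ ≤ V ^ 4 := le_self_pow₀ (by linarith) (by norm_num)
        have k7 : ξ * V ^ 4 * (a / 2) * V = (V ^ 4) * (ξ * V * a / 2) := by ring
        rw [k7]
        have k8 : 0 ≤ ξ * V * a / 2 := by positivity
        nlinarith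
      linarith
    generalize 2 * ξ * ((V : ℝ) + p) * a = T at hR2 hT hS
    generalize (X : ℝ) * (a - 1) * V = S at hR2 hS
    have haV2 : (1 : ℝ) ≤ (a : ℝ) ^ 2 * V := by
      have : (1 : ℝ) ≤ (a : ℝ) ^ 2 := one_le_pow₀ (by linarith)
      nlinarith
    have h7 : 3 * T ^ 2 ≤ S ^ 2 - T ^ 2 := by nlinarith
    have h8 : (3 * T ^ 2) ^ 2 ≤ (S ^ 2 - T ^ 2) ^ 2 :=
      pow_le_pow_left₀ (by positivity) h7 2
    have h9 : (S ^ 2 - T ^ 2) ^ 2 ≤ (S ^ 2 - T ^ 2) ^ 2 * ((a : ℝ) ^ 2 * V) :=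
      le_mul_of_one_le_right (by positivity) haV2
    have hT4 : 0 < T ^ 2 := by positivity
    nlinarith

theorem core8_sound {p V v a X Z x y : ℕ} (hp : 3 ≤ p) (hV : V = (8 * p ^ 2 - 1) * (v + 1))
    (sV : IsSquare ((((8 * p ^ 2 : ℕ) : ℤ) ^ 2 - 1) * (V : ℤ) ^ 2 + 1)) (haV : V ≤ a)
    (hXm : X ≡ p + 1 [MOD a - 1]) (sX : IsSquare (((a : ℤ) ^ 2 - 1) * (X : ℤ) ^ 2 + 1))
    (hZ : p ^ 2 ≤ Z) (hZo : Odd Z)
    (sZ : IsSquare (qDPI (V : ℤ) ((p ^ 2 : ℕ) : ℤ) Z x y))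
    (hR : (0 : ℤ) < iIn (p : ℤ) V a X Z) : p.Prime := by
  have hB12 := growth hp hV sV
  have h9 : 9 ≤ p ^ 2 := by nlinarith
  have hVge : 8 * p ^ 2 - 1 ≤ V := by rw [hV]; exact Nat.le_mul_of_pos_right _ (by omega)
  have h1V : 1 < V := by omega
  have h1a : 1 < a := by omega
  have hZe : Z = yn h1V (p ^ 2) := main_sound h1V (by omega) hZ sZ
  rw [sq] at hZe
  have hodd : Odd p := by
    have h1 := yn_modEq_two h1V (p * p)
    rw [← hZe] at h1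
    have h2 : Z % 2 = (p * p) % 2 := h1
    rw [Nat.odd_iff] at hZo
    rw [hZo] at h2
    have h3 : Odd (p * p) := Nat.odd_iff.2 h2.symm
    exact (Nat.odd_mul.1 h3).1
  have hXe := X_index hp hB12 h1V h1a haV hZe hXm sX hR
  rw [hXe, hZe] at hR
  have hR2 := (ineq_real hp hB12 h1V h1a haV).1 hR
  have D := mkDat hp hB12 h1V h1a haV
  have h3 := D.real_sound hR2
  have h4 := near_N0 h1V hp
  have hV0 : (0 : ℝ) < V := D.V_pos
  have hfact : (p.factorial : ℝ) ≤ (p : ℝ) ^ (p ^ 2) := by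
    have : p.factorial ≤ p ^ (p ^ 2) :=
      (Nat.factorial_le_pow p).trans (Nat.pow_le_pow_right (by omega) (by nlinarith))
    exact_mod_cast this
  have hVB : 1000 * ((p : ℝ) ^ (p ^ 2)) ^ 3 ≤ V := by
    have hB := D.hB
    have h5 : (((p : ℝ) ^ (p ^ 2))) ^ 12 ≤ V := by exact_mod_cast hB12
    have h6 : 1000 * ((p : ℝ) ^ (p ^ 2)) ^ 3 ≤ ((p : ℝ) ^ (p ^ 2)) ^ 4 := by
      have : 0 ≤ ((p : ℝ) ^ (p ^ 2)) ^ 3 := by positivity
      nlinarith
    have h7 : ((p : ℝ) ^ (p ^ 2)) ^ 4 ≤ ((p : ℝ) ^ (p ^ 2)) ^ 12 :=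
      pow_le_pow_right₀ (by linarith) (by norm_num)
    linarith
  have h5 := near_arith (p := p) (V := V) (a := (a : ℤ)) (N := N0 p V) D.s_pos hV0 hp hfact D.hB
    D.s_B hVB (by push_cast; exact h3) h4
  exact nt_sound hp hodd h5

end Pool.Agent.H526E
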