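import Mathlib
import Pool.Agent.H526E.Core8b

set_option autoImplicit false

namespace Pool.Agent.H526E

open Pell Finset Pool.Agent.H689R2

theorem core8_complete {p : ℕ} (hp : 3 ≤ p) (hpr : p.Prime) :
    ∃ v V a X Z x y : ℕ, V = (8 * p ^ 2 - 1) * (v + 1) ∧
      IsSquare ((((8 * p ^ 2 : ℕ) : ℤ) ^ 2 - 1) * (V : ℤ) ^ 2 + 1) ∧ V ≤ a ∧
      X ≡ p + 1 [MOD a - 1] ∧ p + 1 ≤ X ∧ IsSquare (((a : ℤ) ^ 2 - 1) * (X : ℤ) ^ 2 + 1) ∧
      2 * p ^ 2 + 1 ≤ Z ∧ Odd Z ∧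
      IsSquare (qDPI (V : ℤ) ((p ^ 2 : ℕ) : ℤ) Z x y) ∧
      (0 : ℤ) < iIn (p : ℤ) V a X Z := by
  obtain ⟨v, V, hV, sV⟩ := growth_complete hp
  have hB12 := growth hp hV sV
  have h9 : 9 ≤ p ^ 2 := by nlinarith
  have hVge : 8 * p ^ 2 - 1 ≤ V := by rw [hV]; exact Nat.le_mul_of_pos_right _ (by omega)
  have h1V : 1 < V := by omega
  have D0 := mkDat hp hB12 h1V h1V le_rfl
  obtain ⟨az, haz⟩ := nt_complete (p := p) (V := V) hp hpr
  have h4 := near_N0 h1V hp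
  have hV0 : (0 : ℝ) < V := D0.V_pos
  have hBpos : (0 : ℝ) < (p : ℝ) ^ (p ^ 2) := by linarith [D0.hB]
  have hVB : 1000 * ((p : ℝ) ^ (p ^ 2)) ^ 3 ≤ V := by
    have hB := D0.hB
    have h5 : (((p : ℝ) ^ (p ^ 2))) ^ 12 ≤ V := by exact_mod_cast hB12
    have h6 : 1000 * ((p : ℝ) ^ (p ^ 2)) ^ 3 ≤ ((p : ℝ) ^ (p ^ 2)) ^ 4 := by
      have : 0 ≤ ((p : ℝ) ^ (p ^ 2)) ^ 3 := by positivity
      nlinarith
    have h7 : ((p : ℝ) ^ (p ^ 2)) ^ 4 ≤ ((p : ℝ) ^ (p ^ 2)) ^ 12 :=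
      pow_le_pow_right₀ (by linarith) (by norm_num)
    linarith
  have hBV : ((p : ℝ) ^ (p ^ 2)) ^ 3 / V ≤ 1 := by
    rw [div_le_one hV0]
    have : 0 ≤ ((p : ℝ) ^ (p ^ 2)) ^ 3 := by positivity
    linarith
  -- a close to a0 q
  have hf : (p.factorial : ℝ) = p * ((p - 1).factorial : ℝ) := by
    have : p.factorial = p * (p - 1).factorial := (Nat.mul_factorial_pred (by omega)).symm
    exact_mod_cast this
  have hpR : (3 : ℝ) ≤ p := by exact_mod_cast hp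
  have hfp : (1 : ℝ) ≤ p.factorial := by exact_mod_cast Nat.factorial_pos p
  have hclose : |(az : ℝ) - 1 / p - xn h1V p * Q p (1 / V)| ≤ ((p : ℝ) ^ (p ^ 2)) ^ 3 / V := by
    have e0 : (p.factorial : ℝ) * az - (p - 1).factorial = N0 p V := by exact_mod_cast haz
    have e1 : (p.factorial : ℝ) * (1 / p) = (p - 1).factorial := by
      rw [hf]; field_simp
    have e : (p.factorial : ℝ) * ((az : ℝ) - 1 / p - xn h1V p * Q p (1 / V)) =
        -((p.factorial : ℝ) * xn h1V p * Q p (1 / V) - N0 p V) := by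
      rw [mul_sub, mul_sub, e1, ← e0]; ring
    have h5 : |(p.factorial : ℝ) * ((az : ℝ) - 1 / p - xn h1V p * Q p (1 / V))| ≤
        ((p : ℝ) ^ (p ^ 2)) ^ 3 / V := by
      rw [e, abs_neg]; exact h4
    rw [abs_mul, abs_of_pos (by linarith : (0 : ℝ) < p.factorial)] at h5
    nlinarith [abs_nonneg ((az : ℝ) - 1 / p - xn h1V p * Q p (1 / V))]
  have hq1 := D0.hq1
  have hq2 := D0.hq2
  -- a0 ≥ 2 V
  have ha0 : 2 * V ≤ xn h1V p := by
    have h1 : xn h1V 2 ≤ xn h1V p := (strictMono_x h1V).monotone (by omega)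
    have h2 := xn_succ_succ h1V 0
    simp only [zero_add, xn_one, xn_zero] at h2
    have h3 : 2 * V + 1 ≤ 2 * V * V := by nlinarith
    omega
  have ha0R : 2 * (V : ℝ) ≤ xn h1V p := by exact_mod_cast ha0
  obtain ⟨hX0, hXi0, hV1000, ha01000, -⟩ := D0.pos
  have hpi : 1 / (p : ℝ) ≤ 1 := by rw [div_le_one (by linarith)]; linarith
  have hpi0 : 0 < 1 / (p : ℝ) := by positivity
  have hcl := abs_le.1 hclose
  have ha0pos : (0 : ℝ) < xn h1V p := by linarith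
  have hlow : (xn h1V p : ℝ) ≤ xn h1V p * Q p (1 / V) := le_mul_of_one_le_right ha0pos.le hq1
  have hup : (xn h1V p : ℝ) * Q p (1 / V) ≤ xn h1V p * 2 :=
    mul_le_mul_of_nonneg_left hq2 ha0pos.le
  have hazV : (V : ℝ) ≤ az := by linarith [hcl.1]
  have hazV' : (V : ℤ) ≤ az := by exact_mod_cast hazV
  obtain ⟨a, rfl⟩ : ∃ a : ℕ, az = a := ⟨az.toNat, by rw [Int.toNat_of_nonneg (by omega)]⟩
  have haV : V ≤ a := by exact_mod_cast hazV'
  have h1a : 1 < a := by omega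
  have D := mkDat hp hB12 h1V h1a haV
  have ha4 : (a : ℝ) ≤ 4 * xn h1V p := by
    have := hcl.2
    push_cast at this
    linarith
  have hR := D.real_complete ha4 (by push_cast at hclose; exact hclose)
  have hR2 := (ineq_real hp hB12 h1V h1a haV).2 hR
  have hodd : Odd p := hpr.odd_of_ne_two (by omega)
  obtain ⟨x, y, sZ⟩ := main_complete h1V (B := p ^ 2) (by omega)
  refine ⟨v, V, a, yn h1a (p + 1), yn h1V (p ^ 2), x, y, hV, sV, haV, yn_modEq_a_sub_one h1a _,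
    yn_ge_n h1a _, (isSquare_int_iff h1a _).2 ⟨_, rfl⟩, ?_, ?_, sZ, ?_⟩
  · obtain ⟨k, hk⟩ : ∃ k, p ^ 2 = k + 1 := ⟨p ^ 2 - 1, by omega⟩
    have h1 := yn_lower h1V k
    rw [← hk] at h1
    have h2 : (2 * V - 1) ^ 1 ≤ (2 * V - 1) ^ k := Nat.pow_le_pow_right (by omega) (by omega)
    rw [pow_one] at h2
    omega
  · rw [Nat.odd_iff]
    have h1 : yn h1V (p ^ 2) % 2 = p ^ 2 % 2 := yn_modEq_two h1V (p ^ 2)
    rw [h1, ← Nat.odd_iff]
    exact hodd.pow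
  · rw [sq p]; exact hR2

end Pool.Agent.H526E
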