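import Mathlib
import Pool.Agent.H526E.Core8c

set_option autoImplicit false

namespace Pool.Agent.H526E

open Pell Finset Pool.Agent.H689R2

section polys
variable {R : Type*} [CommRing R]

/-- `b = 8 p^2`, `p = t + 2` -/
def eb (t : R) : R := 8 * (t + 2) ^ 2
/-- `V = (b - 1) (v + 1)` -/
def eV (t v : R) : R := (eb t - 1) * (v + 1)
/-- `a = V + c` -/
def ea (t v c : R) : R := eV t v + c
/-- `X = p + 1 + k (a - 1)` -/
def eX (t v c k : R) : R := t + 3 + k * (ea t v c - 1)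
/-- `Z = 2 (p^2 + z) + 1` -/
def eZ (t z : R) : R := 2 * ((t + 2) ^ 2 + z) + 1
/-- first square -/
def eA1 (t v z x y : R) : R := qDPI (eV t v) ((t + 2) ^ 2) (eZ t z) x y
/-- second square -/
def eA2 (t v c k : R) : R := ((ea t v c) ^ 2 - 1) * (eX t v c k) ^ 2 + 1
/-- third square -/
def eA3 (t v : R) : R := ((eb t) ^ 2 - 1) * (eV t v) ^ 2 + 1
/-- the inequality -/
def eR (t v c k z : R) : R := iIn (t + 2) (eV t v) (ea t v c) (eX t v c k) (eZ t z)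
/-- the combined relation -/
def eM (t v c k z x y m : R) : R :=
  rcM (eA1 t v z x y) (eA2 t v c k) (eA3 t v) (eR t v c k z) m
/-- the prime-representing polynomial in eight variables -/
def eP (t v c k z x y m : R) : R := (t + 2) * (1 - (t * eM t v c k z x y m) ^ 2)

end polys

theorem eP_map {R S : Type*} [CommRing R] [CommRing S] (φ : R →+* S) (t v c k z x y m : R) :
    φ (eP t v c k z x y m) = eP (φ t) (φ v) (φ c) (φ k) (φ z) (φ x) (φ y) (φ m) := by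
  simp only [eP, eM, rcM, rcK, eR, iIn, iR, iL, eA1, eA2, eA3, eZ, eX, ea, eV, eb, qDPI, qD, qE, qP,
    qG, qH, qI, map_mul, map_add, map_sub, map_pow, map_one, map_ofNat]

theorem eA2_pos {a X : ℤ} (ha : 1 ≤ a) : 0 < (a ^ 2 - 1) * X ^ 2 + 1 := by
  have : (0 : ℤ) ≤ a ^ 2 - 1 := sq_sub_one_nonneg' ha
  positivity

theorem eight_sound {t v c k z x y m : ℕ} (ht : 1 ≤ t)
    (hM : eM (t : ℤ) v c k z x y m = 0) : (t + 2).Prime := by
  obtain ⟨p, hp⟩ : ∃ p, p = t + 2 := ⟨_, rfl⟩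
  have hp3 : 3 ≤ p := by omega
  have h9 : 9 ≤ p ^ 2 := by nlinarith
  obtain ⟨V, hV⟩ : ∃ V : ℕ, V = (8 * p ^ 2 - 1) * (v + 1) := ⟨_, rfl⟩
  have hb1 : 1 ≤ 8 * p ^ 2 := by omega
  have hpz : ((t : ℤ) + 2) = p := by rw [hp]; push_cast; ring
  have hbz : eb (t : ℤ) = ((8 * p ^ 2 : ℕ) : ℤ) := by unfold eb; rw [hpz]; push_cast; ring
  have hVz : eV (t : ℤ) v = V := by
    unfold eV; rw [hbz, hV]; push_cast [Nat.cast_sub hb1]; ring
  have hVge : 8 * p ^ 2 - 1 ≤ V := by rw [hV]; exact Nat.le_mul_of_pos_right _ (by omega)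
  obtain ⟨a, ha⟩ : ∃ a : ℕ, a = V + c := ⟨_, rfl⟩
  have haz : ea (t : ℤ) v c = a := by unfold ea; rw [hVz, ha]; push_cast; ring
  obtain ⟨X, hX⟩ : ∃ X : ℕ, X = p + 1 + k * (a - 1) := ⟨_, rfl⟩
  have hXz : eX (t : ℤ) v c k = X := by
    unfold eX; rw [haz, hX, hp]; push_cast [Nat.cast_sub (by omega : 1 ≤ a)]; ring
  obtain ⟨Z, hZ⟩ : ∃ Z : ℕ, Z = 2 * (p ^ 2 + z) + 1 := ⟨_, rfl⟩
  have hZz : eZ (t : ℤ) z = Z := by unfold eZ; rw [hpz, hZ]; push_cast; ring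
  have e1 : eA1 (t : ℤ) v z x y = qDPI (V : ℤ) ((p ^ 2 : ℕ) : ℤ) Z x y := by
    unfold eA1; rw [hVz, hZz, hpz]; push_cast; rfl
  have e2 : eA2 (t : ℤ) v c k = ((a : ℤ) ^ 2 - 1) * (X : ℤ) ^ 2 + 1 := by
    unfold eA2; rw [haz, hXz]
  have e3 : eA3 (t : ℤ) v = ((((8 * p ^ 2 : ℕ) : ℤ) ^ 2 - 1) * (V : ℤ) ^ 2 + 1) := by
    unfold eA3; rw [hbz, hVz]
  have e4 : eR (t : ℤ) v c k z = iIn (p : ℤ) V a X Z := by
    unfold eR; rw [hpz, hVz, haz, hXz, hZz]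
  have p1 : 0 < eA1 (t : ℤ) v z x y := by rw [e1]; exact qDPI_pos (by omega)
  have p2 : 0 < eA2 (t : ℤ) v c k := by
    rw [e2]; exact eA2_pos (by exact_mod_cast (by omega : 1 ≤ a))
  have p3 : 0 < eA3 (t : ℤ) v := by
    rw [e3]; exact eA2_pos (by exact_mod_cast hb1)
  obtain ⟨⟨s1, s2, s3⟩, hR⟩ := rcM_sound p1 p2 p3 hM
  rw [e1] at s1
  rw [e2] at s2
  rw [e3] at s3
  rw [e4] at hR
  rw [← hp]
  refine core8_sound (a := a) (X := X) (Z := Z) (x := x) (y := y) hp3 hV s3 (by omega) ?_ s2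
    (by omega) ?_ s1 hR
  · rw [hX]
    have h1 : p + 1 + k * (a - 1) ≡ p + 1 + 0 [MOD a - 1] :=
      Nat.ModEq.add_left _ ((dvd_mul_left _ _).modEq_zero_nat)
    exact h1
  · exact ⟨p ^ 2 + z, hZ⟩

theorem eight_complete {t : ℕ} (ht : 1 ≤ t) (hpr : (t + 2).Prime) :
    ∃ v c k z x y m : ℕ, eM (t : ℤ) v c k z x y m = 0 := by
  obtain ⟨p, hp⟩ : ∃ p, p = t + 2 := ⟨_, rfl⟩
  rw [← hp] at hpr
  have hp3 : 3 ≤ p := by omega
  have h9 : 9 ≤ p ^ 2 := by nlinarith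
  obtain ⟨v, V, a, X, Z, x, y, hV, s3, haV, hXm, hXge, s2, hZge, hZo, s1, hR⟩ :=
    core8_complete hp3 hpr
  have hb1 : 1 ≤ 8 * p ^ 2 := by omega
  have hpz : ((t : ℤ) + 2) = p := by rw [hp]; push_cast; ring
  have hbz : eb (t : ℤ) = ((8 * p ^ 2 : ℕ) : ℤ) := by unfold eb; rw [hpz]; push_cast; ring
  have hVz : eV (t : ℤ) v = V := by
    unfold eV; rw [hbz, hV]; push_cast [Nat.cast_sub hb1]; ring
  have hVge : 8 * p ^ 2 - 1 ≤ V := by rw [hV]; exact Nat.le_mul_of_pos_right _ (by omega)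
  obtain ⟨c, ha⟩ : ∃ c : ℕ, a = V + c := ⟨a - V, by omega⟩
  have haz : ea (t : ℤ) v c = a := by unfold ea; rw [hVz, ha]; push_cast; ring
  obtain ⟨k, hX⟩ := exists_quot hXm hXge
  have hXz : eX (t : ℤ) v c k = X := by
    unfold eX; rw [haz, hX, hp]; push_cast [Nat.cast_sub (by omega : 1 ≤ a)]; ring
  obtain ⟨w, hw⟩ := hZo
  obtain ⟨z, hz⟩ : ∃ z, w = p ^ 2 + z := ⟨w - p ^ 2, by omega⟩
  have hZz : eZ (t : ℤ) z = Z := by unfold eZ; rw [hpz, hw, hz]; push_cast; ring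
  have e1 : eA1 (t : ℤ) v z x y = qDPI (V : ℤ) ((p ^ 2 : ℕ) : ℤ) Z x y := by
    unfold eA1; rw [hVz, hZz, hpz]; push_cast; rfl
  have e2 : eA2 (t : ℤ) v c k = ((a : ℤ) ^ 2 - 1) * (X : ℤ) ^ 2 + 1 := by
    unfold eA2; rw [haz, hXz]
  have e3 : eA3 (t : ℤ) v = ((((8 * p ^ 2 : ℕ) : ℤ) ^ 2 - 1) * (V : ℤ) ^ 2 + 1) := by
    unfold eA3; rw [hbz, hVz]
  have e4 : eR (t : ℤ) v c k z = iIn (p : ℤ) V a X Z := by
    unfold eR; rw [hpz, hVz, haz, hXz, hZz]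
  obtain ⟨m, hm⟩ := rcM_complete (A1 := eA1 (t : ℤ) v z x y) (A2 := eA2 (t : ℤ) v c k)
    (A3 := eA3 (t : ℤ) v) (r := eR (t : ℤ) v c k z)
    (by rw [e1]; exact s1) (by rw [e2]; exact s2) (by rw [e3]; exact s3)
    (by rw [e1]; exact qDPI_pos (by omega))
    (by rw [e2]; exact eA2_pos (by exact_mod_cast (by omega : 1 ≤ a)))
    (by rw [e3]; exact eA2_pos (by exact_mod_cast hb1))
    (by rw [e4]; exact hR)
  exact ⟨v, c, k, z, x, y, m, hm⟩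

end Pool.Agent.H526E
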